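import Pool.Agent.Work.MP_62db8e_nt.RT.Stmts

/-!
# MP_62db8e_nt, block RT, item Blow: blow up of a splitting
-/

set_option autoImplicit false

namespace MP62db8e.RT

open Finset

/-- the number of the block of `k` consecutive integers which contains `x` -/
def Blow_c (k : ℕ) (x : ℤ) : ℤ := (x - 1) / (k : ℤ) + 1

/-- the blow up of a set inside `[1, 2 k n]` -/
noncomputable def Blow_up (k n : ℕ) (A : Finset ℤ) : Finset ℤ :=
  (Icc 1 (2 * ((k * n : ℕ) : ℤ))).filter fun x => Blow_c k x ∈ A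

theorem Blow_mem {k n : ℕ} {A : Finset ℤ} {x : ℤ} :
    x ∈ Blow_up k n A ↔ (1 ≤ x ∧ x ≤ 2 * ((k * n : ℕ) : ℤ)) ∧ Blow_c k x ∈ A := by
  unfold Blow_up
  rw [Finset.mem_filter, Finset.mem_Icc]

theorem Blow_range {k n : ℕ} (hk : 1 ≤ k) {x : ℤ} (h1 : 1 ≤ x)
    (h2 : x ≤ 2 * ((k * n : ℕ) : ℤ)) : 1 ≤ Blow_c k x ∧ Blow_c k x ≤ 2 * (n : ℤ) := by
  have hk0 : (0 : ℤ) < k := by exact_mod_cast hk
  unfold Blow_c
  constructor
  · have : 0 ≤ (x - 1) / (k : ℤ) := Int.ediv_nonneg (by omega) hk0.le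
    omega
  · have : (x - 1) / (k : ℤ) < 2 * (n : ℤ) := by
      rw [Int.ediv_lt_iff_lt_mul hk0]
      push_cast at h2
      nlinarith
    omega

theorem Blow_fibre {k : ℕ} (hk : 1 ≤ k) (a x : ℤ) :
    Blow_c k x = a ↔ (a - 1) * k + 1 ≤ x ∧ x ≤ a * k := by
  have hk0 : (0 : ℤ) < k := by exact_mod_cast hk
  unfold Blow_c
  constructor
  · intro h
    have h1 : (x - 1) / (k : ℤ) = a - 1 := by omega
    have h2 := Int.emod_add_mul_ediv (x - 1) (k : ℤ)
    have h3 := Int.emod_nonneg (x - 1) hk0.ne'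
    have h4 := Int.emod_lt_of_pos (x - 1) hk0
    rw [h1] at h2
    constructor
    · nlinarith
    · nlinarith
  · rintro ⟨h1, h2⟩
    have h3 : (x - 1) / (k : ℤ) = a - 1 := by
      rw [Int.ediv_eq_iff_of_pos hk0]
      constructor <;> nlinarith
    omega

theorem Blow_card {k n : ℕ} (hk : 1 ≤ k) {A : Finset ℤ} (hA : A ⊆ Icc 1 (2 * (n : ℤ))) :
    (Blow_up k n A).card = k * A.card := by
  have hk0 : (0 : ℤ) < k := by exact_mod_cast hk
  rw [Finset.card_eq_sum_card_fiberwise (f := Blow_c k) (t := A)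
    (fun x hx => (Blow_mem.1 (Finset.mem_coe.1 hx)).2)]
  rw [Finset.sum_congr rfl (g := fun _ => k), Finset.sum_const, smul_eq_mul, mul_comm]
  intro a ha
  have ha' := Finset.mem_Icc.1 (hA ha)
  have hset : (Blow_up k n A).filter (fun x => Blow_c k x = a) = Icc ((a - 1) * k + 1) (a * k) := by
    ext x
    rw [Finset.mem_filter, Blow_mem, Finset.mem_Icc]
    constructor
    · rintro ⟨_, h⟩
      exact (Blow_fibre hk a x).1 h
    · intro h
      have hc := (Blow_fibre hk a x).2 h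
      refine ⟨⟨⟨?_, ?_⟩, ?_⟩, hc⟩
      · nlinarith
      · push_cast
        nlinarith
      · rw [hc]
        exact ha
  rw [hset, Int.card_Icc]
  have : a * (k : ℤ) + 1 - ((a - 1) * k + 1) = k := by ring
  rw [this]
  simp

theorem Blow_splitting {k n : ℕ} (hk : 1 ≤ k) {A B : Finset ℤ} (h : IsSplitting n A B) :
    IsSplitting (k * n) (Blow_up k n A) (Blow_up k n B) := by
  obtain ⟨h1, h2, h3, h4⟩ := h
  have hA : A ⊆ Icc 1 (2 * (n : ℤ)) := h2 ▸ Finset.subset_union_left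
  have hB : B ⊆ Icc 1 (2 * (n : ℤ)) := h2 ▸ Finset.subset_union_right
  refine ⟨?_, ?_, ?_, ?_⟩
  · rw [Finset.disjoint_left]
    intro x hx hy
    exact (Finset.disjoint_left.1 h1) (Blow_mem.1 hx).2 (Blow_mem.1 hy).2
  · ext x
    rw [Finset.mem_union, Blow_mem, Blow_mem, Finset.mem_Icc]
    constructor
    · rintro (h | h)
      · exact h.1
      · exact h.1
    · intro hx
      have h5 := Blow_range (n := n) hk hx.1 hx.2
      have h6 : Blow_c k x ∈ A ∪ B := by
        rw [h2, Finset.mem_Icc]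
        exact h5
      rcases Finset.mem_union.1 h6 with h7 | h7
      · exact Or.inl ⟨hx, h7⟩
      · exact Or.inr ⟨hx, h7⟩
  · rw [Blow_card hk hA, h3]
  · rw [Blow_card hk hB, h4]

theorem Blow_overlap {k n m : ℕ} (hk : 1 ≤ k) {A B : Finset ℤ}
    (h : ∀ e : ℤ, overlap A B e ≤ m) (d : ℤ) :
    overlap (Blow_up k n A) (Blow_up k n B) d ≤ k * m := by
  have hk0 : (0 : ℤ) < k := by exact_mod_cast hk
  unfold overlap
  have hcard : (Finset.Ico (0 : ℤ) k).card = k := by simp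
  have hmain := Finset.card_le_mul_card_image_of_maps_to
    (s := (Blow_up k n A ×ˢ Blow_up k n B).filter (fun p => p.1 - p.2 = d))
    (f := fun p : ℤ × ℤ => (p.2 - 1) % (k : ℤ)) (t := Finset.Ico (0 : ℤ) k)
    (fun p _ => Finset.mem_Ico.2 ⟨Int.emod_nonneg _ hk0.ne', Int.emod_lt_of_pos _ hk0⟩) m ?_
  · rw [hcard, mul_comm] at hmain
    exact hmain
  · intro b hb
    rw [Finset.mem_Ico] at hb
    set r : ℤ := d % (k : ℤ) with hr
    set q : ℤ := d / (k : ℤ) with hq
    have hd : r + k * q = d := Int.emod_add_mul_ediv d (k : ℤ)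
    have hr0 : 0 ≤ r := Int.emod_nonneg _ hk0.ne'
    have hrk : r < k := Int.emod_lt_of_pos _ hk0
    have key : ∀ p : ℤ × ℤ, p.1 - p.2 = d → (p.2 - 1) % (k : ℤ) = b →
        Blow_c k p.1 - Blow_c k p.2 = if b + r < k then q else q + 1 := by
      intro p hp1 hp2
      have h2 := Int.emod_add_mul_ediv (p.2 - 1) (k : ℤ)
      rw [hp2] at h2
      unfold Blow_c
      have h3 : p.1 - 1 = b + r + k * ((p.2 - 1) / (k : ℤ) + q) := by linarith
      rw [h3, Int.add_mul_ediv_left _ _ hk0.ne']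
      split_ifs with hbr
      · rw [Int.ediv_eq_zero_of_lt (by omega) hbr]
        ring
      · have h4 : (b + r) / (k : ℤ) = 1 := by
          rw [Int.ediv_eq_iff_of_pos hk0]
          constructor <;> omega
        rw [h4]
        ring
    refine le_trans ?_ (h (if b + r < k then q else q + 1))
    unfold overlap
    refine Finset.card_le_card_of_injOn (fun p => (Blow_c k p.1, Blow_c k p.2)) ?_ ?_
    · intro p hp
      simp only [Finset.coe_filter, Finset.mem_filter, Finset.mem_product, Set.mem_ofPred_eq] at hp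
      obtain ⟨⟨⟨h1, h2⟩, h3⟩, h4⟩ := hp
      simp only [Finset.coe_filter, Finset.mem_product, Set.mem_ofPred_eq]
      exact ⟨⟨(Blow_mem.1 h1).2, (Blow_mem.1 h2).2⟩, key p h3 h4⟩
    · intro p hp p' hp' heq
      simp only [Finset.coe_filter, Finset.mem_filter, Finset.mem_product, Set.mem_ofPred_eq] at hp hp'
      obtain ⟨_, h4⟩ := hp
      obtain ⟨_, h4'⟩ := hp'
      have h5 : Blow_c k p.2 = Blow_c k p'.2 := (Prod.ext_iff.1 heq).2
      unfold Blow_c at h5
      have h6 := Int.emod_add_mul_ediv (p.2 - 1) (k : ℤ)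
      have h7 := Int.emod_add_mul_ediv (p'.2 - 1) (k : ℤ)
      have h8 : (p.2 - 1) / (k : ℤ) = (p'.2 - 1) / (k : ℤ) := by omega
      rw [h4, h8] at h6
      rw [h4'] at h7
      have h9 : p.2 = p'.2 := by omega
      have h10 : p.1 = p'.1 := by omega
      exact Prod.ext h10 h9

theorem prf_Blow (h1 : MLe) (h2 : MEx) : Blow := by
  intro n k hk
  obtain ⟨A, B, hAB, hO⟩ := h2 n
  exact h1 (k * n) (k * M n) _ _ (Blow_splitting hk hAB) (Blow_overlap hk hO)

end MP62db8e.RT
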