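import Mathlib

/-!
# MP_62db8e_nt, block RT: rate of convergence in the Erdos minimum overlap problem

THEOREM (`Main`).  There is a real `mu` with `M n / n → mu` and, for every `n ≥ 1`,
`mu n ≤ M n ≤ mu n + 15 √(n log (n+1))`.

PROOF.  (A) Blow-up: `M (k n) ≤ k M n`.  (B) `M n ≤ M (n K) / K + 15 √(n log (n+1))` for all
`n, K ≥ 1`: take an optimal splitting `(A,B)` of `{1..2nK}`, windows of length `K L`
(`L = ⌈√n⌉`) starting at the multiples of `K`, densities `p_i` of `A` in the windows; the sums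
`∑ p_(i+k) (1 - p_i)` are at most `(M (nK) / K) ((L+1)/L)^2`; round the `p_i` independently at
random to `0` or `1` (Hoeffding for the two matchings formed by the pairs `{i, i+k}`, union bound
over the shifts `k`), then repair the cardinality.  (C) By (A) and (B)
`M n / n ≤ M (n m) / (n m) + e(n) ≤ M m / m + e(n)` with `e(n) = 15 √(log(n+1)/n)`, hence
`mu = inf M m / m` works.

Captain: helper33.  Every item: one `def ... : Prop` below, its docstring is the complete proof.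
-/

set_option autoImplicit false

namespace MP62db8e.RT

open Finset

/-- `O_k(A,B)`: the number of pairs `(a,b) ∈ A × B` with `a - b = k`. -/
def overlap (A B : Finset ℤ) (k : ℤ) : ℕ := ((A ×ˢ B).filter (fun p => p.1 - p.2 = k)).card

/-- `O(A,B) = max_k O_k(A,B)`. -/
noncomputable def maxOverlap (A B : Finset ℤ) : ℕ := ⨆ k : ℤ, overlap A B k

/-- `(A,B)` is a splitting of `{1,…,2n}` into two disjoint halves of size `n`. -/
def IsSplitting (n : ℕ) (A B : Finset ℤ) : Prop :=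
  Disjoint A B ∧ A ∪ B = Finset.Icc 1 (2 * (n : ℤ)) ∧ A.card = n ∧ B.card = n

/-- `M(n)`: the least `O(A,B)` over all splittings of `{1,…,2n}`. -/
noncomputable def M (n : ℕ) : ℕ :=
  sInf {m : ℕ | ∃ A B : Finset ℤ, IsSplitting n A B ∧ maxOverlap A B = m}

/-- The number of elements of `A` in the window `((i-1)K, (i-1)K + KL]`. -/
def win (A : Finset ℤ) (K L : ℕ) (i : ℤ) : ℕ :=
  (A.filter (fun x => (i - 1) * (K : ℤ) < x ∧ x ≤ (i - 1) * (K : ℤ) + (K : ℤ) * (L : ℤ))).card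

/-- Product weight of the set `R ⊆ {0..m-1}`: the probability of `R` when `i` is put into `R`
with probability `p i`, independently. -/
noncomputable def wt (m : ℕ) (p : ℕ → ℝ) (R : Finset ℕ) : ℝ :=
  (∏ i ∈ R, p i) * ∏ i ∈ range m \ R, (1 - p i)

/-- A set of pairs of elements of `{0..m-1}` which is a matching. -/
def IsMatching (m : ℕ) (E : Finset (ℕ × ℕ)) : Prop :=
  (∀ e ∈ E, e.1 < m ∧ e.2 < m ∧ e.1 ≠ e.2) ∧
  ∀ e ∈ E, ∀ f ∈ E, e ≠ f → e.1 ≠ f.1 ∧ e.1 ≠ f.2 ∧ e.2 ≠ f.1 ∧ e.2 ≠ f.2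

/-- The number of pairs `e ∈ E` with `e.1 ∈ R`, `e.2 ∉ R`. -/
def cut (E : Finset (ℕ × ℕ)) (R : Finset ℕ) : ℕ := (E.filter (fun e => e.1 ∈ R ∧ e.2 ∉ R)).card

/-! ## Part 1: elementary facts on `M` -/

/-- Item MLe (EASY).  PROOF: `M n ≤ maxOverlap A B` (`Nat.sInf_le`), and
`maxOverlap A B ≤ m` (`ciSup_le'` or `ciSup_le`).  Compare
`Pool/Agent/Results/MP_62db8e_nt/LowerBound.lean` (same definitions). -/
def MLe : Prop := ∀ (n m : ℕ) (A B : Finset ℤ), IsSplitting n A B →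
  (∀ k : ℤ, overlap A B k ≤ m) → M n ≤ m

/-- Item MEx (EASY).  PROOF: the set in the definition of `M n` is nonempty (take
`A = {1..n}`, `B = {n+1..2n}`: `exists_splitting` in
`Pool/Agent/Results/MP_62db8e_nt/LowerBound.lean`), so by `Nat.sInf_mem` there is a splitting with
`maxOverlap A B = M n`; and `overlap A B k ≤ maxOverlap A B` since the values are bounded by
`(A ×ˢ B).card` (`overlap_le_max` there). -/
def MEx : Prop := ∀ n : ℕ, ∃ A B : Finset ℤ, IsSplitting n A B ∧ ∀ k : ℤ, overlap A B k ≤ M n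

/-- Item MLeN (EASY).  PROOF: for any splitting `overlap A B k ≤ A.card = n`
(the first coordinate determines the pair), then as in MLe. -/
def MLeN : Prop := ∀ n : ℕ, M n ≤ n

/-- Item Blow (MEDIUM).  PROOF: let `(A,B)` be optimal for `n` (MEx), and for an integer `x` put
`c x = (x + k - 1) / k` (Euclidean division, `= ⌈x/k⌉`).  Let
`A' = {x ∈ [1, 2kn] : c x ∈ A}`, `B' = {x ∈ [1, 2kn] : c x ∈ B}`.  `c` maps `[1, 2kn]` onto
`[1, 2n]` and each fibre `{x : c x = a} = {(a-1)k+1, …, ak}` has `k` elements, so `(A',B')` is a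
splitting of `{1..2kn}`.  Let `d = q k + r`, `0 ≤ r < k` (`q = d / k`, `r = d % k`).  A pair
`(y + d, y)` with `y = (b-1)k + s`, `1 ≤ s ≤ k` (so `c y = b`) has
`y + d = (b - 1 + q) k + s + r`, hence `c (y+d) = b + q` if `s + r ≤ k` and
`c (y+d) = b + q + 1` if `s + r > k`.  So `overlap A' B' d` is at most
`∑_{b ∈ B} ((k - r) 1[b+q ∈ A] + r 1[b+q+1 ∈ A]) = (k - r) overlap A B q + r overlap A B (q+1)
≤ k M n`.  (Count: the map `(x, y) ↦ ((c x, c y), s)` with `s = y - (c y - 1) k` is injective on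
the pairs, its image lies in the union of `{pairs of A × B with difference q} × {1..k-r}` and
`{pairs of A × B with difference q+1} × {k-r+1..k}`.)  Conclude with MLe. -/
def Blow : Prop := ∀ n k : ℕ, 1 ≤ k → M (k * n) ≤ k * M n

/-- Item Fix (MEDIUM).  PROOF: let `U = Icc 1 (2n)`, `D = |R.card - n|`.  If `R.card ≥ n` choose
`R' ⊆ R` with `n` elements (`Finset.exists_subset_card_eq`), if `R.card < n` choose
`R ⊆ R' ⊆ U` with `n` elements (`Finset.exists_subsuperset_card_eq`; `U.card = 2n`).  Then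
`(R', U \ R')` is a splitting.  For every `k` one has
`overlap R' (U \ R') k ≤ overlap R (U \ R) k + D`.  First case: `R' ⊆ R`; a pair
`(x, y)`, `x ∈ R'`, `y ∈ U \ R'`, `x - y = k` has `x ∈ R`, and either `y ∈ U \ R` (counted by
`overlap R (U \ R) k`) or `y ∈ R \ R'`, and `y` determines the pair: at most `(R \ R').card = D`
pairs.  Second case: `R ⊆ R'`; then `y ∈ U \ R`, and either `x ∈ R` or `x ∈ R' \ R`, which has
`D` elements and determines the pair.  Conclude with MLe. -/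
def Fix : Prop := ∀ (n X D : ℕ) (R : Finset ℤ), R ⊆ Icc 1 (2 * (n : ℤ)) →
  (∀ k : ℤ, overlap R (Icc 1 (2 * (n : ℤ)) \ R) k ≤ X) →
  (R.card : ℤ) - n ≤ D → (n : ℤ) - R.card ≤ D → M n ≤ X + D

/-! ## Part 2: windows -/

/-- Item WinPt (EASY-MEDIUM).  PROOF: if the set on the left is empty the left side is `0`.
Otherwise put `c z = ⌈z/K⌉`, i.e. `(c z - 1) K < z ≤ c z K`.  For `i` in the set
`(i-1) K < y ≤ (i-1) K + K L` gives `c y - L + 1 ≤ i ≤ c y`, and in the same way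
`c x - L + 1 ≤ i + k ≤ c x`.  Hence `i` lies in the intersection of the intervals
`[c y - L + 1, c y]` and `[c x - k - L + 1, c x - k]`, which has
`L - |c x - c y - k|` elements if this is positive and none otherwise.  So the number of `i` is at
most `L - |c x - c y - k|` (as the set is nonempty this is positive).  Since
`0 ≤ K c z - z ≤ K - 1` one has `|K (c x - c y - k) - (x - y - k K)| ≤ K - 1`, so
`K · #  ≤ K L - K |c x - c y - k| ≤ K L - |x - y - k K| + (K - 1) ≤ K (L+1) - |x - y - k K|`. -/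
def WinPt : Prop := ∀ (K L : ℕ), 1 ≤ K → 1 ≤ L → ∀ (x y k : ℤ) (I : Finset ℤ),
  (K : ℤ) * ((I.filter (fun i : ℤ =>
      ((i + k - 1) * (K : ℤ) < x ∧ x ≤ (i + k - 1) * (K : ℤ) + (K : ℤ) * (L : ℤ)) ∧
      ((i - 1) * (K : ℤ) < y ∧ y ≤ (i - 1) * (K : ℤ) + (K : ℤ) * (L : ℤ)))).card : ℤ)
    ≤ max 0 ((K : ℤ) * ((L : ℤ) + 1) - |x - y - k * (K : ℤ)|)

/-- Item Tent (EASY-MEDIUM).  PROOF: terms with `|d - c| ≥ T` vanish and all terms are
nonnegative, so we may replace `D` by `Ioo (c - T) (c + T)` (or by the image of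
`range (2T)` ...), and `∑_{|e| < T} (T - |e|) = T^2` by induction on `T`
(`∑_{|e| < T+1} (T + 1 - |e|) = ∑_{|e| < T} (T - |e|) + #{|e| ≤ T} = T^2 + 2T + 1`). -/
def Tent : Prop := ∀ (T : ℕ) (c : ℤ) (D : Finset ℤ),
  ∑ d ∈ D, max 0 ((T : ℤ) - |d - c|) ≤ (T : ℤ) ^ 2

/-- Item Win (MEDIUM; may use WinPt, Tent as hypotheses `h1 : WinPt`, `h2 : Tent`).
PROOF: `win A K L (i+k) * win B K L i` is the number of pairs `(x,y) ∈ A × B` with `x` in the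
window of `i+k` and `y` in the window of `i`.  Interchange the sums:
`∑_{i ∈ I} = ∑_{(x,y) ∈ A × B} #{i ∈ I : …}`.  Multiply by `K` and use WinPt:
`K ∑_{i ∈ I} win A (i+k) win B i ≤ ∑_{(x,y) ∈ A × B} max 0 (T - |x - y - kK|)`, `T = K (L+1)`.
Group the pairs by the difference `d = x - y` (`Finset.sum_fiberwise` over the image `D` of the
difference map, or `Finset.sum_comp`): the sum is
`∑_{d ∈ D} overlap A B d · max 0 (T - |d - kK|) ≤ m ∑_{d ∈ D} max 0 (T - |d - kK|) ≤ m T^2` by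
Tent.  Divide by `K`. -/
def Win : Prop := ∀ (A B : Finset ℤ) (m K L : ℕ), 1 ≤ K → 1 ≤ L →
  (∀ d : ℤ, overlap A B d ≤ m) → ∀ (k : ℤ) (I : Finset ℤ),
  ∑ i ∈ I, win A K L (i + k) * win B K L i ≤ m * (K * (L + 1) ^ 2)

/-- Item Mass (MEDIUM).  PROOF: interchange the sums: `∑_{i=1}^{m} win A K L i =
∑_{x ∈ A} #{i ∈ [1,m] : (i-1)K < x ≤ (i-1)K + KL}`, `m = 2n - L + 1`.  With `c = ⌈x/K⌉ ∈ [1, 2n]`
the set is `{i ∈ [1,m] : c - L + 1 ≤ i ≤ c}`; it has at most `L` elements, and exactly `L` if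
`L ≤ c ≤ m`.  Upper bound: `≤ L · A.card = L n K`.  Lower bound: the `x ∈ [1, 2nK]` with `c < L`
are the `x ≤ (L-1)K`, those with `c > m` are the `x > m K = 2nK - (L-1)K`; together at most
`2 (L-1) K` numbers, so `∑ ≥ L (n K - 2 (L-1) K)`. -/
def Mass : Prop := ∀ (A : Finset ℤ) (n K L : ℕ), 1 ≤ K → 1 ≤ L → L ≤ n →
  A ⊆ Icc 1 (2 * (n : ℤ) * K) → A.card = n * K →
  (∑ i ∈ Icc (1 : ℤ) (2 * (n : ℤ) - L + 1), (win A K L i : ℤ)) ≤ (L : ℤ) * n * K ∧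
  (L : ℤ) * ((n : ℤ) * K - 2 * ((L : ℤ) - 1) * K) ≤
    ∑ i ∈ Icc (1 : ℤ) (2 * (n : ℤ) - L + 1), (win A K L i : ℤ)

/-- Item Compl (EASY).  PROOF: the window `((i-1)K, (i-1)K + KL]` is contained in `[1, 2nK]`
(as `1 ≤ i ≤ 2n - L + 1`), it has `K L` elements and each of them is in exactly one of `A`, `B`.
The second statement: a window has `K L` elements. -/
def Compl : Prop := (∀ (A B : Finset ℤ) (n K L : ℕ), Disjoint A B →
  A ∪ B = Icc 1 (2 * (n : ℤ) * K) → ∀ i : ℤ, 1 ≤ i → i ≤ 2 * (n : ℤ) - L + 1 →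
    win A K L i + win B K L i = K * L) ∧
  ∀ (A : Finset ℤ) (K L : ℕ) (i : ℤ), win A K L i ≤ K * L

/-! ## Part 3: random rounding -/

/-- Item Hoef (EASY-MEDIUM).  PROOF: (i) `1 - q + q e^(-l) ≥ e^(-l q)` (convexity of `exp`,
`convexOn_exp.2` with weights `1-q, q` at the points `0, -l`).
(ii) `(1 - q + q e^l)(1 - q + q e^(-l)) = 1 + q (1-q)(e^l + e^(-l) - 2)
= 1 + 2 q (1-q)(cosh l - 1) ≤ 1 + (cosh l - 1)/2 = cosh (l/2)^2 ≤ e^(l^2/4)`, as
`q (1-q) ≤ 1/4` and `cosh x ≤ e^(x^2/2)` (`Real.cosh_le_exp_half_sq`).  Divide by (i). -/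
def Hoef : Prop := ∀ q l : ℝ, 0 ≤ q → q ≤ 1 →
  1 + q * (Real.exp l - 1) ≤ Real.exp (l * q + l ^ 2 / 4)

/-- Item WSum (EASY-MEDIUM).  PROOF: put `u i = if i ∈ T then 0 else p i`,
`v i = if i ∈ S then 0 else 1 - p i`.  By `Finset.prod_add` (or `Finset.prod_add` on `range m`)
`∏_{i<m} (u i + v i) = ∑_{R ⊆ range m} ∏_{i ∈ R} u i ∏_{i ∈ range m \ R} v i`, and the summand is
`wt m p R` if `S ⊆ R` and `R` is disjoint from `T`, and `0` otherwise (a factor `0`).  The left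
side is `∏_{S} p i ∏_T (1 - p i)`, the other factors are `1`. -/
def WSum : Prop := ∀ (m : ℕ) (p : ℕ → ℝ) (S T : Finset ℕ), S ⊆ range m → T ⊆ range m →
  Disjoint S T →
  ∑ R ∈ (range m).powerset.filter (fun R => S ⊆ R ∧ Disjoint R T), wt m p R
    = (∏ i ∈ S, p i) * ∏ i ∈ T, (1 - p i)

/-- Item WProd (MEDIUM; may use `h : WSum`).  PROOF: `x^(cut E R) = ∏_{e ∈ E} (1 + (x-1) 1_e(R))`
with `1_e(R) = 1` if `e.1 ∈ R`, `e.2 ∉ R` and `0` otherwise.  Expand the product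
(`Finset.prod_one_add` or `Finset.prod_add`): `∑_{F ⊆ E} (x-1)^|F| ∏_{e ∈ F} 1_e(R)`, and
`∏_{e ∈ F} 1_e(R) = 1` iff `S_F = {e.1 : e ∈ F} ⊆ R` and `R` is disjoint from
`T_F = {e.2 : e ∈ F}`.  As `E` is a matching, `S_F`, `T_F` are disjoint and `e ↦ e.1`, `e ↦ e.2`
are injective on `F`.  Interchange the sums and use WSum:
`∑_R wt R x^(cut E R) = ∑_{F ⊆ E} (x-1)^|F| ∏_{e ∈ F} p e.1 (1 - p e.2)
= ∏_{e ∈ E} (1 + (x-1) p e.1 (1 - p e.2))`.  (Alternative: induction on `E`.) -/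
def WProd : Prop := ∀ (m : ℕ) (p : ℕ → ℝ) (E : Finset (ℕ × ℕ)), IsMatching m E → ∀ x : ℝ,
  ∑ R ∈ (range m).powerset, wt m p R * x ^ cut E R
    = ∏ e ∈ E, (1 + (x - 1) * (p e.1 * (1 - p e.2)))

/-- Item Tail2 (MEDIUM; may use `h1 : Hoef`, `h2 : WProd`).  PROOF: put `l = 2 t / m ≥ 0`,
`s = ∑_{e ∈ E} p e.1 (1 - p e.2)`.  All `wt m p R` (`R ⊆ range m`) are nonnegative.  For `R` in the
filtered set `1 ≤ exp (l (cut E R - s - t/2))`.  So the left side is at most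
`e^(-l s - l t/2) ∑_R wt R (e^l)^(cut E R) = e^(-l s - l t / 2) ∏_{e ∈ E} (1 + (e^l - 1) q_e)`
with `q_e = p e.1 (1 - p e.2) ∈ [0,1]`, and by Hoef
`≤ e^(-l s - l t / 2) ∏ e^(l q_e + l^2/4) = e^(-l t/2 + |E| l^2/4) ≤ e^(-l t/2 + m l^2/8)
= e^(-t^2/m + t^2/(2m)) = e^(-t^2/(2m))`, since `2 |E| ≤ m`. -/
def Tail2 : Prop := ∀ (m : ℕ) (p : ℕ → ℝ) (E : Finset (ℕ × ℕ)) (t : ℝ), 1 ≤ m →
  (∀ i, 0 ≤ p i ∧ p i ≤ 1) → IsMatching m E → 2 * E.card ≤ m → 0 ≤ t →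
  ∑ R ∈ (range m).powerset.filter
      (fun R => (∑ e ∈ E, p e.1 * (1 - p e.2)) + t / 2 < (cut E R : ℝ)), wt m p R
    ≤ Real.exp (-(t ^ 2 / (2 * m)))

/-- Item Tail1 (MEDIUM; may use `h1 : Hoef`).  PROOF: `∑_{R ⊆ range m} wt R x^|R| =
∏_{i<m} (x p i + (1 - p i))` (`Finset.prod_add` with `u i = x p i`, `v i = 1 - p i`).  Put
`s = ∑_{i<m} p i`, `l = 2t/m`.  (1) as in Tail2:
`≤ e^(-l s - l t) ∏ (1 + p i (e^l - 1)) ≤ e^(-l t + m l^2/4) = e^(-t^2/m) ≤ e^(-t^2/(2m))`.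
(2) the same with `-l`: for `R` in the set `1 ≤ exp (l (s - t - |R|))`, and
`∑_R wt R (e^(-l))^|R| = ∏ (1 + p i (e^(-l) - 1)) ≤ e^(-l s + m l^2/4)`. -/
def Tail1 : Prop := ∀ (m : ℕ) (p : ℕ → ℝ) (t : ℝ), 1 ≤ m →
  (∀ i, 0 ≤ p i ∧ p i ≤ 1) → 0 ≤ t →
  ∑ R ∈ (range m).powerset.filter (fun R => (∑ i ∈ range m, p i) + t < (R.card : ℝ)), wt m p R
      ≤ Real.exp (-(t ^ 2 / (2 * m))) ∧
  ∑ R ∈ (range m).powerset.filter (fun R => (R.card : ℝ) < (∑ i ∈ range m, p i) - t), wt m p R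
      ≤ Real.exp (-(t ^ 2 / (2 * m)))

/-- Item Match (EASY-MEDIUM).  PROOF: for `j ∈ {0,1}` let `I_j` be the set of the `i < m` with
`i + k < m` and `(i / k) % 2 = j`.  `E j = {(i+k, i) : i ∈ I_j}`, `F j = {(i, i+k) : i ∈ I_j}`
(images under injective maps).  Matching: if `i ≠ i'` are in `I_j` then `i ≠ i' + k` and
`i' ≠ i + k` because `(i + k) / k = i / k + 1` has the other parity.  `2 |I_j| ≤ m` since the
`2 |I_j|` numbers `i`, `i + k` (`i ∈ I_j`) are different and `< m`.  `I_0`, `I_1` are disjoint with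
union `{i : i + k < m}`. -/
def Match : Prop := ∀ m k : ℕ, 1 ≤ k → ∃ E F : Fin 2 → Finset (ℕ × ℕ),
  (∀ j, IsMatching m (E j) ∧ 2 * (E j).card ≤ m ∧ IsMatching m (F j) ∧ 2 * (F j).card ≤ m) ∧
  (∀ R : Finset ℕ,
    (((range m).filter (fun i => i + k < m ∧ i + k ∈ R ∧ i ∉ R)).card = ∑ j, cut (E j) R) ∧
    ((range m).filter (fun i => i + k < m ∧ i ∈ R ∧ i + k ∉ R)).card = ∑ j, cut (F j) R) ∧
  ∀ f : ℕ → ℕ → ℝ,
    (∑ j, ∑ e ∈ E j, f e.1 e.2 = ∑ i ∈ range (m - k), f (i + k) i) ∧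
    ∑ j, ∑ e ∈ F j, f e.1 e.2 = ∑ i ∈ range (m - k), f i (i + k)

/-- Item Round (MEDIUM; may use `h1 : WSum`, `h2 : Tail2`, `h3 : Tail1`, `h4 : Match`).
PROOF: put `t = √(2 m log (4m))`, so `exp (-(t^2/(2m))) = 1/(4m)`.  The total weight is `1`
(WSum with `S = T = ∅`).  Bad sets: for every `k` with `1 ≤ k < m` and every `j ∈ {0,1}` the `R`
with `cut (E j) R > ∑_{e ∈ E j} p e.1 (1 - p e.2) + t/2`, the same for `F j` (Tail2: each has
weight `≤ 1/(4m)`; there are `4 (m-1)` of them), and the two sets of Tail1.  Total weight of the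
bad sets `≤ (4 (m-1) + 2)/(4m) < 1`, so some `R ⊆ range m` is in none of them (weights are
nonnegative: `∑` over all `R` is `1`, if every `R` were bad then `1 ≤ ∑_bad ≤ (4m-2)/(4m)`).  For
this `R` and `1 ≤ k < m`: by Match `#{i : i+k ∈ R, i ∉ R} = cut (E 0) R + cut (E 1) R ≤
∑_{i < m-k} p (i+k) (1 - p i) + t/2 + t/2`, the same for the other direction.  For `k ≥ m` the
sets are empty and the right side is `t ≥ 0`. -/
def Round : Prop := ∀ (m : ℕ) (p : ℕ → ℝ), 1 ≤ m → (∀ i, 0 ≤ p i ∧ p i ≤ 1) →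
  ∃ R ⊆ range m,
    |(R.card : ℝ) - ∑ i ∈ range m, p i| ≤ Real.sqrt (2 * m * Real.log (4 * m)) ∧
    ∀ k : ℕ, 1 ≤ k →
      (((range m).filter (fun i => i + k < m ∧ i + k ∈ R ∧ i ∉ R)).card : ℝ) ≤
          (∑ i ∈ range (m - k), p (i + k) * (1 - p i)) + Real.sqrt (2 * m * Real.log (4 * m)) ∧
      (((range m).filter (fun i => i + k < m ∧ i ∈ R ∧ i + k ∉ R)).card : ℝ) ≤
          (∑ i ∈ range (m - k), p i * (1 - p (i + k))) + Real.sqrt (2 * m * Real.log (4 * m))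

/-! ## Part 4: assembly -/

/-- Item Cnt (EASY-MEDIUM): overlaps of the rounded set.  PROOF: `R' = {j + 1 : j ∈ R} ⊆
[1, m] ⊆ [1, 2n]`.  A pair of `overlap R' ([1,2n] \ R') k` is determined by `y` (`x = y + k`).
For `k = 0` there is none (`x = y`).  Pairs with `y > m`: at most `2n - m` of them.  Pairs with
`y ≤ m`: `y = i + 1`, `i < m`, `i ∉ R`; if `k > 0`, `k = κ` natural, then `x = i + κ + 1`, so
`i + κ ∈ R` (in particular `i + κ < m`): at most `Y` of them; if `k < 0`, `k = -κ`, then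
`x = i' + 1` with `i' = i - κ ∈ R`, `i' + κ < m`, `i' + κ ∉ R`: at most `Y` of them. -/
def Cnt : Prop := ∀ (n m Y : ℕ) (R : Finset ℕ), m ≤ 2 * n → R ⊆ range m →
  (∀ k : ℕ, 1 ≤ k →
    ((range m).filter (fun i => i + k < m ∧ i + k ∈ R ∧ i ∉ R)).card ≤ Y ∧
    ((range m).filter (fun i => i + k < m ∧ i ∈ R ∧ i + k ∉ R)).card ≤ Y) →
  R.image (fun j : ℕ => (j : ℤ) + 1) ⊆ Icc 1 (2 * (n : ℤ)) ∧
  (R.image (fun j : ℕ => (j : ℤ) + 1)).card = R.card ∧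
  ∀ k : ℤ, overlap (R.image (fun j : ℕ => (j : ℤ) + 1))
    (Icc 1 (2 * (n : ℤ)) \ R.image (fun j : ℕ => (j : ℤ) + 1)) k ≤ Y + (2 * n - m)

/-- Item Step (MEDIUM-HARD; may use `MEx, MLeN, Fix, Win, Mass, Compl, Round, Cnt` as
hypotheses).  PROOF: let `(A,B)` be a splitting of `{1..2nK}` with all overlaps
`≤ m0 = M (n K)` (MEx), `m0 ≤ n K` (MLeN), `m = 2 n - L + 1` (so `m ≥ n + 1`, `m ≤ 2n`),
`p j = win A K L (j+1) / (K L)` (in `[0,1]` by Compl), and `1 - p j = win B K L (j+1) / (K L)`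
for `j < m` (Compl).  Take `R` from Round, `t = √(2 m log (4m))`.  For `k ≥ 1`:
`∑_{i<m-k} p (i+k) (1 - p i) = (KL)^(-2) ∑_{i<m-k} win A (i+k+1) win B (i+1)
≤ (KL)^(-2) m0 K (L+1)^2 = (m0/K) ((L+1)/L)^2` by Win (`I` = image of `range (m-k)` under
`i ↦ i+1`), and in the same way `∑ p i (1 - p (i+k)) ≤ (m0/K) ((L+1)/L)^2` by Win with shift `-k`
and `I` = image of `range (m-k)` under `i ↦ i + k + 1`.  So Cnt applies with
`Y = ⌊(m0/K) ((L+1)/L)^2 + t⌋` and gives overlaps `≤ Y + (L - 1)` for the set `R'`.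
By Mass `n - 2(L-1) ≤ ∑_{j<m} p j ≤ n`, so `|R.card - n| ≤ t + 2 (L-1)`, hence `≤ D` with
`D = ⌊t + 2(L-1)⌋`.  Fix: `M n ≤ Y + (L-1) + D ≤ (m0/K) (1 + 2/L + 1/L^2) + 2 t + 3 (L-1)`, and
`(m0/K) (2/L + 1/L^2) ≤ n · 3/L`. -/
def Step : Prop := ∀ n K L : ℕ, 1 ≤ n → 1 ≤ K → 1 ≤ L → L ≤ n →
  (M n : ℝ) ≤ (M (n * K) : ℝ) / K + 3 * n / L +
    2 * Real.sqrt (2 * (2 * n - L + 1 : ℝ) * Real.log (4 * (2 * n - L + 1 : ℝ))) + 3 * ((L : ℝ) - 1)

/-- Item Num (EASY-MEDIUM).  PROOF: `L = ⌈√n⌉₊`: `√n ≤ L < √n + 1`, `1 ≤ L ≤ n` (`√n ≤ n`).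
`3 n / L ≤ 3 √n`, `3 (L - 1) ≤ 3 √n`, `2n - L + 1 ≤ 2n`, so the square root is at most
`√(4 n log (8n)) ≤ √(12 n log (n+1))` because `8 n ≤ (n+1)^3` (for `n ≥ 1`:
`(n+1)^3 - 8n = n^3 + 3n^2 - 5n + 1 = (n-1)(n^2 + 4n - 1) ≥ 0`).  `√n ≤ √(n log (n+1) / 0.69)` as
`log (n+1) ≥ log 2 ≥ 0.69` (`Real.log_two_gt_d9`).  So the sum is at most
`(6/√0.69 + 2 √12) √(n log (n+1)) ≤ (7.23 + 6.93) √(n log(n+1)) ≤ 15 √(n log (n+1))`. -/
def Num : Prop := ∀ n : ℕ, 1 ≤ n → ∃ L : ℕ, 1 ≤ L ∧ L ≤ n ∧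
  3 * (n : ℝ) / L +
    2 * Real.sqrt (2 * (2 * n - L + 1 : ℝ) * Real.log (4 * (2 * n - L + 1 : ℝ))) + 3 * ((L : ℝ) - 1)
    ≤ 15 * Real.sqrt (n * Real.log (n + 1))

/-- The theorem (captain). -/
def Main : Prop := ∃ μ : ℝ, Filter.Tendsto (fun n : ℕ => (M n : ℝ) / n) Filter.atTop (nhds μ) ∧
  ∀ n : ℕ, 1 ≤ n → μ * n ≤ M n ∧
    (M n : ℝ) ≤ μ * n + 15 * Real.sqrt (n * Real.log (n + 1))

end MP62db8e.RT
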