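import Mathlib
import Pool.Agent.Work.MP_62db8e_nt.RT.Stmts

/-!
# Item Cnt of block RT (helper44): overlaps of the rounded set
-/

set_option autoImplicit false

namespace MP62db8e.RT

open Finset

/-- counting the pairs by the second coordinate -/
theorem Cnt_ov (A B : Finset ℤ) (k : ℤ) (U V : Finset ℤ) (a b : ℕ) (hU : U.card ≤ a)
    (hV : V.card ≤ b)
    (h : ∀ y : ℤ, y + k ∈ A → y ∈ B → y ∈ U ∨ y ∈ V) : overlap A B k ≤ a + b := by
  unfold overlap
  have h1 : ((A ×ˢ B).filter (fun p => p.1 - p.2 = k)).card ≤ (U ∪ V).card := by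
    apply card_le_card_of_injOn (fun p => p.2)
    · intro p hp
      obtain ⟨hp1, hp2⟩ := mem_filter.1 hp
      obtain ⟨hA, hB⟩ := mem_product.1 hp1
      have e : p.2 + k = p.1 := by omega
      exact mem_union.2 (h p.2 (e ▸ hA) hB)
    · intro p hp q hq hpq
      obtain ⟨_, hp2⟩ := mem_filter.1 hp
      obtain ⟨_, hq2⟩ := mem_filter.1 hq
      have e : p.2 = q.2 := hpq
      exact Prod.ext (by omega) e
  exact h1.trans ((card_union_le U V).trans (Nat.add_le_add hU hV))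

theorem prf_Cnt : Cnt := by
  intro n m Y R hmn hR hY
  have hlt : ∀ j ∈ R, j < m := fun j hj => mem_range.1 (hR hj)
  refine ⟨?_, ?_, ?_⟩
  · intro x hx
    obtain ⟨j, hj, rfl⟩ := mem_image.1 hx
    have := hlt j hj
    exact mem_Icc.2 ⟨by omega, by omega⟩
  · exact card_image_of_injective _ (fun a b h => by simpa using h)
  · intro k
    have hmem : ∀ x : ℤ, x ∈ R.image (fun j : ℕ => (j : ℤ) + 1) ↔ ∃ j ∈ R, (j : ℤ) + 1 = x :=
      fun x => mem_image
    have hU : (Icc ((m : ℤ) + 1) (2 * (n : ℤ))).card ≤ 2 * n - m := by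
      rw [Int.card_Icc]
      omega
    rw [Nat.add_comm]
    rcases lt_trichotomy k 0 with hk | hk | hk
    · obtain ⟨κ, hκ⟩ : ∃ κ : ℕ, k = -(κ : ℤ) := ⟨k.natAbs, by omega⟩
      have hκ1 : 1 ≤ κ := by omega
      refine Cnt_ov _ _ k (Icc ((m : ℤ) + 1) (2 * (n : ℤ)))
        (((range m).filter (fun i => i + κ < m ∧ i ∈ R ∧ i + κ ∉ R)).image
          (fun i : ℕ => (i : ℤ) + κ + 1)) _ _ hU (card_image_le.trans (hY κ hκ1).2) ?_
      intro y hy1 hy2
      obtain ⟨hI, hN⟩ := mem_sdiff.1 hy2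
      obtain ⟨j, hj, hjy⟩ := (hmem _).1 hy1
      obtain ⟨hI1, hI2⟩ := mem_Icc.1 hI
      by_cases hym : (m : ℤ) + 1 ≤ y
      · exact Or.inl (mem_Icc.2 ⟨hym, hI2⟩)
      · right
        refine mem_image.2 ⟨j, mem_filter.2 ⟨hR hj, by omega, hj, ?_⟩, by omega⟩
        intro hjk
        exact hN ((hmem _).2 ⟨j + κ, hjk, by push_cast; omega⟩)
    · refine (Cnt_ov _ _ k ∅ ∅ 0 0 (by simp) (by simp) ?_).trans (by omega)
      intro y hy1 hy2
      rw [hk, add_zero] at hy1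
      exact absurd hy1 (mem_sdiff.1 hy2).2
    · obtain ⟨κ, hκ⟩ : ∃ κ : ℕ, k = (κ : ℤ) := ⟨k.natAbs, by omega⟩
      have hκ1 : 1 ≤ κ := by omega
      refine Cnt_ov _ _ k (Icc ((m : ℤ) + 1) (2 * (n : ℤ)))
        (((range m).filter (fun i => i + κ < m ∧ i + κ ∈ R ∧ i ∉ R)).image
          (fun i : ℕ => (i : ℤ) + 1)) _ _ hU (card_image_le.trans (hY κ hκ1).1) ?_
      intro y hy1 hy2
      obtain ⟨hI, hN⟩ := mem_sdiff.1 hy2
      obtain ⟨j, hj, hjy⟩ := (hmem _).1 hy1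
      obtain ⟨hI1, hI2⟩ := mem_Icc.1 hI
      by_cases hym : (m : ℤ) + 1 ≤ y
      · exact Or.inl (mem_Icc.2 ⟨hym, hI2⟩)
      · right
        obtain ⟨i, hi⟩ : ∃ i : ℕ, (i : ℤ) + 1 = y := ⟨(y - 1).toNat, by omega⟩
        have hij : i + κ = j := by omega
        refine mem_image.2 ⟨i, mem_filter.2 ⟨mem_range.2 (by omega), ?_, hij ▸ hj, ?_⟩, hi⟩
        · exact hij ▸ hlt j hj
        · intro hiR
          exact hN ((hmem _).2 ⟨i, hiR, hi⟩)

end MP62db8e.RT
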