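import Pool.Agent.Work.MP_62db8e_nt.RT.Stmts

/-!
# MP_62db8e_nt, block RT, item Compl: every window has `K L` elements
-/

set_option autoImplicit false

namespace MP62db8e.RT

open Finset

theorem Compl_card (K L : ℕ) (i : ℤ) :
    (Ioc ((i - 1) * (K : ℤ)) ((i - 1) * (K : ℤ) + (K : ℤ) * (L : ℤ))).card = K * L := by
  rw [Int.card_Ioc]
  have : (i - 1) * (K : ℤ) + (K : ℤ) * (L : ℤ) - (i - 1) * (K : ℤ) = ((K * L : ℕ) : ℤ) := by
    push_cast
    ring
  rw [this, Int.toNat_natCast]

theorem prf_Compl : Compl := by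
  refine ⟨?_, ?_⟩
  · intro A B n K L hd hU i h1 h2
    have hK : (0 : ℤ) ≤ (K : ℤ) := Int.natCast_nonneg K
    have hlo : 0 ≤ (i - 1) * (K : ℤ) := mul_nonneg (by linarith) hK
    have hhi : (i - 1) * (K : ℤ) + (K : ℤ) * (L : ℤ) ≤ 2 * (n : ℤ) * K := by
      have h3 : (i - 1 + L) * (K : ℤ) ≤ 2 * (n : ℤ) * K :=
        mul_le_mul_of_nonneg_right (by linarith) hK
      linarith
    unfold win
    rw [← card_union_of_disjoint (disjoint_filter_filter hd), ← filter_union, hU,
      ← Compl_card K L i]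
    congr 1
    ext x
    rw [mem_filter, mem_Icc, mem_Ioc]
    constructor
    · intro h
      exact h.2
    · intro h
      exact ⟨⟨by linarith [h.1], h.2.trans hhi⟩, h⟩
  · intro A K L i
    unfold win
    rw [← Compl_card K L i]
    refine card_le_card fun x hx => ?_
    rw [mem_filter] at hx
    exact mem_Ioc.2 hx.2

end MP62db8e.RT
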