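import Mathlib
import Pool.Agent.Work.MP_62db8e_nt.RT.Stmts

set_option autoImplicit false

namespace MP62db8e.RT

open Finset

theorem Fix_down (U R R' : Finset ℤ) (h : R' ⊆ R) (k : ℤ) :
    overlap R' (U \ R') k ≤ overlap R (U \ R) k + (R \ R').card := by
  unfold overlap
  have hs : (R' ×ˢ (U \ R')).filter (fun p => p.1 - p.2 = k) ⊆
      (R ×ˢ (U \ R)).filter (fun p => p.1 - p.2 = k) ∪
        (R \ R').image (fun y => ((y + k, y) : ℤ × ℤ)) := by
    intro p hp
    obtain ⟨x, y⟩ := p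
    simp only [mem_filter, mem_product, mem_sdiff, mem_union, mem_image] at hp ⊢
    obtain ⟨⟨hx, hyU, hy⟩, hk⟩ := hp
    by_cases hyR : y ∈ R
    · right
      exact ⟨y, ⟨hyR, hy⟩, by rw [← hk]; simp⟩
    · left
      exact ⟨⟨h hx, hyU, hyR⟩, hk⟩
  exact (card_le_card hs).trans ((card_union_le _ _).trans (Nat.add_le_add_left card_image_le _))

theorem Fix_up (U R R' : Finset ℤ) (h : R ⊆ R') (k : ℤ) :
    overlap R' (U \ R') k ≤ overlap R (U \ R) k + (R' \ R).card := by
  unfold overlap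
  have hs : (R' ×ˢ (U \ R')).filter (fun p => p.1 - p.2 = k) ⊆
      (R ×ˢ (U \ R)).filter (fun p => p.1 - p.2 = k) ∪
        (R' \ R).image (fun x => ((x, x - k) : ℤ × ℤ)) := by
    intro p hp
    obtain ⟨x, y⟩ := p
    simp only [mem_filter, mem_product, mem_sdiff, mem_union, mem_image] at hp ⊢
    obtain ⟨⟨hx, hyU, hy⟩, hk⟩ := hp
    by_cases hxR : x ∈ R
    · left
      exact ⟨⟨hxR, hyU, fun hyR => hy (h hyR)⟩, hk⟩
    · right
      exact ⟨x, ⟨hx, hxR⟩, by rw [← hk]; simp⟩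
  exact (card_le_card hs).trans ((card_union_le _ _).trans (Nat.add_le_add_left card_image_le _))

theorem Fix_splitting (n : ℕ) (R : Finset ℤ) (hR : R ⊆ Icc 1 (2 * (n : ℤ))) (hc : R.card = n) :
    IsSplitting n R (Icc 1 (2 * (n : ℤ)) \ R) := by
  refine ⟨disjoint_sdiff, union_sdiff_of_subset hR, hc, ?_⟩
  rw [card_sdiff_of_subset hR, hc, Int.card_Icc]
  omega

theorem prf_Fix (h1 : MLe) : Fix := by
  intro n X D R hR hX hD1 hD2
  have hU : (Icc 1 (2 * (n : ℤ))).card = 2 * n := by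
    rw [Int.card_Icc]
    omega
  rcases le_total n R.card with h | h
  · obtain ⟨R', hR', hc⟩ := exists_subset_card_eq h
    refine h1 n (X + D) R' (Icc 1 (2 * (n : ℤ)) \ R')
      (Fix_splitting n R' (hR'.trans hR) hc) (fun k => ?_)
    have e : (R \ R').card ≤ D := by
      rw [card_sdiff_of_subset hR', hc]
      omega
    exact (Fix_down _ R R' hR' k).trans (Nat.add_le_add (hX k) e)
  · obtain ⟨R', hR', hR'U, hc⟩ := exists_subsuperset_card_eq hR h (by rw [hU]; omega)
    refine h1 n (X + D) R' (Icc 1 (2 * (n : ℤ)) \ R')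
      (Fix_splitting n R' hR'U hc) (fun k => ?_)
    have e : (R' \ R).card ≤ D := by
      rw [card_sdiff_of_subset hR', hc]
      omega
    exact (Fix_up _ R R' hR' k).trans (Nat.add_le_add (hX k) e)

end MP62db8e.RT
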