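import Pool.Agent.Work.MP_62db8e_nt.RT.Stmts

/-!
# MP_62db8e_nt, block RT, item Hoef: the inequality of Hoeffding
-/

set_option autoImplicit false

namespace MP62db8e.RT

open Finset

theorem Hoef_convex (q l : ℝ) (h0 : 0 ≤ q) (h1 : q ≤ 1) :
    Real.exp (-(l * q)) ≤ 1 - q + q * Real.exp (-l) := by
  have h := convexOn_exp.2 (Set.mem_univ (0 : ℝ)) (Set.mem_univ (-l)) (sub_nonneg.mpr h1) h0
    (by ring)
  simp only [smul_eq_mul, mul_zero, zero_add, Real.exp_zero, mul_one] at h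
  have e : q * -l = -(l * q) := by ring
  rw [e] at h
  exact h

theorem Hoef_prod (q l : ℝ) :
    (1 - q + q * Real.exp l) * (1 - q + q * Real.exp (-l)) ≤ Real.exp (l ^ 2 / 4) := by
  have hy : Real.exp l = Real.exp (l / 2) ^ 2 := by
    rw [← Real.exp_nat_mul]
    congr 1
    push_cast
    ring
  have hz : Real.exp (-l) = Real.exp (-(l / 2)) ^ 2 := by
    rw [← Real.exp_nat_mul]
    congr 1
    push_cast
    ring
  have hyz : Real.exp (l / 2) * Real.exp (-(l / 2)) = 1 := by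
    rw [← Real.exp_add, add_neg_cancel, Real.exp_zero]
  have hc := Real.cosh_le_exp_half_sq (l / 2)
  have hc0 : 0 < Real.cosh (l / 2) := Real.cosh_pos _
  have hc2 : Real.cosh (l / 2) ^ 2 ≤ Real.exp (l ^ 2 / 4) := by
    have h1 := pow_le_pow_left₀ hc0.le hc 2
    refine h1.trans (le_of_eq ?_)
    rw [← Real.exp_nat_mul]
    congr 1
    push_cast
    ring
  refine le_trans ?_ hc2
  rw [Real.cosh_eq, hy, hz]
  generalize Real.exp (l / 2) = y at hyz ⊢
  generalize Real.exp (-(l / 2)) = z at hyz ⊢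
  have e1 : (1 - q + q * y ^ 2) * (1 - q + q * z ^ 2) = 1 + q * (1 - q) * (y - z) ^ 2 := by
    have : y ^ 2 * z ^ 2 = 1 := by
      rw [← mul_pow, hyz, one_pow]
    linear_combination q ^ 2 * this + 2 * q * (1 - q) * hyz
  have e2 : ((y + z) / 2) ^ 2 = 1 + (y - z) ^ 2 / 4 := by
    linear_combination hyz
  rw [e1, e2]
  have h4 : q * (1 - q) ≤ 1 / 4 := by nlinarith [sq_nonneg (q - 1 / 2)]
  nlinarith [mul_le_mul_of_nonneg_right h4 (sq_nonneg (y - z))]

theorem prf_Hoef : Hoef := by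
  intro q l h0 h1
  have hc := Hoef_convex q l h0 h1
  have hp := Hoef_prod q l
  have hE : 0 < Real.exp (-(l * q)) := Real.exp_pos _
  have hb : 0 < 1 - q + q * Real.exp (-l) := lt_of_lt_of_le hE hc
  have ha : 0 ≤ 1 - q + q * Real.exp l :=
    add_nonneg (sub_nonneg.mpr h1) (mul_nonneg h0 (Real.exp_pos _).le)
  have h2 : (1 - q + q * Real.exp l) * Real.exp (-(l * q)) ≤ Real.exp (l ^ 2 / 4) :=
    (mul_le_mul_of_nonneg_left hc ha).trans hp
  have h3 : Real.exp (l * q + l ^ 2 / 4) = Real.exp (l ^ 2 / 4) * Real.exp (l * q) := by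
    rw [add_comm, Real.exp_add]
  rw [h3]
  have h4 : Real.exp (-(l * q)) * Real.exp (l * q) = 1 := by
    rw [← Real.exp_add, neg_add_cancel, Real.exp_zero]
  calc 1 + q * (Real.exp l - 1)
      = (1 - q + q * Real.exp l) * (Real.exp (-(l * q)) * Real.exp (l * q)) := by
        rw [h4]
        ring
    _ = (1 - q + q * Real.exp l) * Real.exp (-(l * q)) * Real.exp (l * q) := by ring
    _ ≤ Real.exp (l ^ 2 / 4) * Real.exp (l * q) :=
        mul_le_mul_of_nonneg_right h2 (Real.exp_pos _).le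

end MP62db8e.RT
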