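import Mathlib
import Pool.Agent.Work.MP_62db8e_nt.RT.Stmts

/-! Item MEx (helper15): an optimal splitting. -/

set_option autoImplicit false

namespace MP62db8e.RT

open Finset

theorem MEx_overlap_le_max (A B : Finset ℤ) (k : ℤ) : overlap A B k ≤ maxOverlap A B := by
  refine le_ciSup (f := fun k => overlap A B k) ?_ k
  exact ⟨(A ×ˢ B).card, by rintro _ ⟨k, rfl⟩; exact Finset.card_filter_le _ _⟩

theorem MEx_exists_splitting (n : ℕ) : ∃ A B : Finset ℤ, IsSplitting n A B := by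
  refine ⟨Finset.Icc 1 (n : ℤ), Finset.Icc ((n : ℤ) + 1) (2 * n), ?_, ?_, ?_, ?_⟩
  · rw [Finset.disjoint_left]
    intro x hx hy
    rw [Finset.mem_Icc] at hx hy
    omega
  · ext x
    rw [Finset.mem_union, Finset.mem_Icc, Finset.mem_Icc, Finset.mem_Icc]
    omega
  · simp
  · simp; omega

theorem prf_MEx : MEx := by
  intro n
  have hne : {m : ℕ | ∃ A B : Finset ℤ, IsSplitting n A B ∧ maxOverlap A B = m}.Nonempty := by
    obtain ⟨A, B, hAB⟩ := MEx_exists_splitting n
    exact ⟨_, A, B, hAB, rfl⟩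
  obtain ⟨A, B, hAB, hM⟩ := Nat.sInf_mem hne
  refine ⟨A, B, hAB, fun k => ?_⟩
  have h := MEx_overlap_le_max A B k
  rw [hM] at h
  exact h

end MP62db8e.RT
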