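import Mathlib
import Pool.Agent.Work.MP_62db8e_nt.RT.Stmts

/-!
# MP_62db8e_nt, block RT, item MLe
-/

set_option autoImplicit false

namespace MP62db8e.RT

open Finset

theorem prf_MLe : MLe := by
  intro n m A B hs h
  have h1 : M n ≤ maxOverlap A B := Nat.sInf_le ⟨A, B, hs, rfl⟩
  have h2 : maxOverlap A B ≤ m := ciSup_le h
  exact h1.trans h2

end MP62db8e.RT
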