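import Pool.Agent.Work.MP_62db8e_nt.RT.Stmts

/-!
# MP_62db8e_nt, block RT, item MLeN: `M n ≤ n`
-/

set_option autoImplicit false

namespace MP62db8e.RT

open Finset

theorem MLeN_overlap (A B : Finset ℤ) (k : ℤ) : overlap A B k ≤ A.card := by
  unfold overlap
  refine Finset.card_le_card_of_injOn Prod.fst ?_ ?_
  · intro p hp
    have h := (Finset.mem_filter.1 (Finset.mem_coe.1 hp)).1
    exact Finset.mem_coe.2 (Finset.mem_product.1 h).1
  · intro p hp q hq h
    have h1 := (Finset.mem_filter.1 (Finset.mem_coe.1 hp)).2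
    have h2 := (Finset.mem_filter.1 (Finset.mem_coe.1 hq)).2
    have h3 : p.1 = q.1 := h
    refine Prod.ext h3 ?_
    omega

theorem MLeN_split (n : ℕ) :
    IsSplitting n (Finset.Icc 1 (n : ℤ)) (Finset.Icc ((n : ℤ) + 1) (2 * (n : ℤ))) := by
  refine ⟨?_, ?_, ?_, ?_⟩
  · rw [Finset.disjoint_left]
    intro x hx hy
    rw [Finset.mem_Icc] at hx hy
    omega
  · ext x
    rw [Finset.mem_union, Finset.mem_Icc, Finset.mem_Icc, Finset.mem_Icc]
    omega
  · rw [Int.card_Icc]
    omega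
  · rw [Int.card_Icc]
    omega

/-- **Item MLeN**. -/
theorem prf_MLeN : MLeN := by
  intro n
  have hs := MLeN_split n
  have h1 : M n ≤ maxOverlap (Finset.Icc 1 (n : ℤ)) (Finset.Icc ((n : ℤ) + 1) (2 * (n : ℤ))) :=
    Nat.sInf_le ⟨_, _, hs, rfl⟩
  refine h1.trans ?_
  unfold maxOverlap
  refine ciSup_le fun k => ?_
  exact (MLeN_overlap _ _ k).trans hs.2.2.1.le

end MP62db8e.RT
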