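import Pool.Agent.Work.MP_62db8e_nt.RT.Stmts

set_option autoImplicit false

namespace MP62db8e.RT

open Finset Filter

theorem Main_step (hS : Step) (hN : Num) (n K : ℕ) (hn : 1 ≤ n) (hK : 1 ≤ K) :
    (M n : ℝ) ≤ (M (n * K) : ℝ) / K + 15 * Real.sqrt (n * Real.log (n + 1)) := by
  obtain ⟨L, hL1, hLn, h⟩ := hN n hn
  have := hS n K L hn hK hL1 hLn
  linarith

theorem Main_tend : Tendsto (fun n : ℕ => 15 * Real.sqrt (n * Real.log (n + 1)) / n) atTop
    (nhds 0) := by
  have h1 : Tendsto (fun x : ℝ => Real.log x / x) atTop (nhds 0) := by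
    simpa using Real.tendsto_pow_log_div_mul_add_atTop 1 0 1 one_ne_zero
  have h2 : Tendsto (fun n : ℕ => Real.log ((n : ℝ) + 1) / ((n : ℝ) + 1)) atTop (nhds 0) :=
    h1.comp (tendsto_atTop_add_const_right _ _ tendsto_natCast_atTop_atTop)
  have h3 : Tendsto (fun n : ℕ => 15 * Real.sqrt (2 * (Real.log ((n : ℝ) + 1) / ((n : ℝ) + 1))))
      atTop (nhds 0) := by
    have h4 := ((h2.const_mul 2).sqrt).const_mul 15
    simpa using h4
  refine squeeze_zero' ?_ ?_ h3
  · filter_upwards with n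
    positivity
  · filter_upwards [eventually_ge_atTop 1] with n hn
    have hn' : (1 : ℝ) ≤ n := by exact_mod_cast hn
    have hl : 0 ≤ Real.log ((n : ℝ) + 1) := Real.log_nonneg (by linarith)
    rw [mul_div_assoc]
    refine mul_le_mul_of_nonneg_left ?_ (by norm_num)
    rw [div_le_iff₀ (by linarith)]
    have h6 : (n : ℝ) * Real.log ((n : ℝ) + 1) ≤
        2 * (Real.log ((n : ℝ) + 1) / ((n : ℝ) + 1)) * (n : ℝ) ^ 2 := by
      rw [← mul_div_assoc, div_mul_eq_mul_div, le_div_iff₀ (by linarith)]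
      nlinarith [mul_nonneg (mul_nonneg hl (by linarith : (0:ℝ) ≤ n)) (by linarith : (0:ℝ) ≤ (n:ℝ) - 1)]
    calc Real.sqrt ((n : ℝ) * Real.log ((n : ℝ) + 1))
        ≤ Real.sqrt (2 * (Real.log ((n : ℝ) + 1) / ((n : ℝ) + 1)) * (n : ℝ) ^ 2) :=
          Real.sqrt_le_sqrt h6
      _ = Real.sqrt (2 * (Real.log ((n : ℝ) + 1) / ((n : ℝ) + 1))) * n := by
          rw [Real.sqrt_mul (by positivity), Real.sqrt_sq (by linarith)]

theorem prf_Main (hB : Blow) (hS : Step) (hN : Num) : Main := by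
  classical
  have key : ∀ n m : ℕ, 1 ≤ n → 1 ≤ m → (M n : ℝ) / n -
      15 * Real.sqrt (n * Real.log (n + 1)) / n ≤ (M m : ℝ) / m := by
    intro n m hn hm
    have hn' : (0 : ℝ) < n := by exact_mod_cast hn
    have hm' : (0 : ℝ) < m := by exact_mod_cast hm
    have h1 := Main_step hS hN n m hn hm
    have h2 : (M (n * m) : ℝ) ≤ n * M m := by exact_mod_cast hB m n hn
    rw [← sub_div, div_le_div_iff₀ hn' hm']
    have h3 : (M (n * m) : ℝ) / m ≤ n * M m / m := div_le_div_of_nonneg_right h2 hm'.le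
    have h4 : (M n : ℝ) - 15 * Real.sqrt (n * Real.log (n + 1)) ≤ n * M m / m := by linarith
    rw [le_div_iff₀ hm'] at h4
    linarith
  set μ : ℝ := ⨅ m : ℕ, (M (m + 1) : ℝ) / ((m + 1 : ℕ) : ℝ) with hμ
  have hbdd : BddBelow (Set.range fun m : ℕ => (M (m + 1) : ℝ) / ((m + 1 : ℕ) : ℝ)) :=
    ⟨0, by rintro _ ⟨m, rfl⟩; positivity⟩
  have hlo : ∀ n : ℕ, 1 ≤ n → μ ≤ (M n : ℝ) / n := by
    intro n hn
    obtain ⟨m, rfl⟩ : ∃ m, n = m + 1 := ⟨n - 1, by omega⟩
    exact ciInf_le hbdd m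
  have hup : ∀ n : ℕ, 1 ≤ n → (M n : ℝ) / n -
      15 * Real.sqrt (n * Real.log (n + 1)) / n ≤ μ := by
    intro n hn
    exact le_ciInf fun m => key n (m + 1) hn (by omega)
  refine ⟨μ, ?_, ?_⟩
  · have h0 := Main_tend
    have h1 : Tendsto (fun n : ℕ => μ + 15 * Real.sqrt (n * Real.log (n + 1)) / n) atTop
        (nhds μ) := by simpa using h0.const_add μ
    refine tendsto_of_tendsto_of_tendsto_of_le_of_le' tendsto_const_nhds h1 ?_ ?_
    · filter_upwards [eventually_ge_atTop 1] with n hn using hlo n hn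
    · filter_upwards [eventually_ge_atTop 1] with n hn
      linarith [hup n hn]
  · intro n hn
    have hn' : (0 : ℝ) < n := by exact_mod_cast hn
    refine ⟨?_, ?_⟩
    · have := hlo n hn
      rwa [le_div_iff₀ hn'] at this
    · have h := hup n hn
      rw [← sub_div, div_le_iff₀ hn'] at h
      linarith

end MP62db8e.RT
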