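import Pool.Agent.Work.MP_62db8e_nt.RT.Stmts

set_option autoImplicit false

namespace MP62db8e.RT

open Finset

/-- the windows containing `x` -/
theorem Mass_mem (K L : ℕ) (hK : 1 ≤ K) (x i : ℤ) :
    ((i - 1) * (K : ℤ) < x ∧ x ≤ (i - 1) * (K : ℤ) + (K : ℤ) * (L : ℤ)) ↔
      ((x - 1) / (K : ℤ) + 2 - L ≤ i ∧ i ≤ (x - 1) / (K : ℤ) + 1) := by
  have hK' : (0 : ℤ) < K := by exact_mod_cast hK
  have h1 : (i - 1 ≤ (x - 1) / (K : ℤ)) ↔ (i - 1) * (K : ℤ) ≤ x - 1 :=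
    Int.le_ediv_iff_mul_le hK'
  have h2 : ((x - 1) / (K : ℤ) < i - 1 + L) ↔ x - 1 < (i - 1 + L) * (K : ℤ) :=
    Int.ediv_lt_iff_lt_mul hK'
  have h3 : (i - 1 + L) * (K : ℤ) = (i - 1) * (K : ℤ) + (K : ℤ) * (L : ℤ) := by ring
  rw [h3] at h2
  constructor
  · rintro ⟨h4, h5⟩
    have h6 := h1.2 (by omega)
    have h7 := h2.2 (by omega)
    omega
  · rintro ⟨h4, h5⟩
    have h6 := h1.1 (by omega)
    have h7 := h2.1 (by omega)
    omega

theorem Mass_swap (A I : Finset ℤ) (K L : ℕ) :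
    ∑ i ∈ I, (win A K L i : ℤ) = ∑ x ∈ A, ((I.filter (fun i : ℤ =>
      (i - 1) * (K : ℤ) < x ∧ x ≤ (i - 1) * (K : ℤ) + (K : ℤ) * (L : ℤ))).card : ℤ) := by
  unfold win
  have := Finset.sum_card_bipartiteAbove_eq_sum_card_bipartiteBelow
    (s := I) (t := A) (fun (i x : ℤ) =>
      (i - 1) * (K : ℤ) < x ∧ x ≤ (i - 1) * (K : ℤ) + (K : ℤ) * (L : ℤ))
  unfold Finset.bipartiteAbove Finset.bipartiteBelow at this
  exact_mod_cast this

theorem Mass_filter (K L : ℕ) (hK : 1 ≤ K) (x : ℤ) (I : Finset ℤ) :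
    I.filter (fun i : ℤ =>
      (i - 1) * (K : ℤ) < x ∧ x ≤ (i - 1) * (K : ℤ) + (K : ℤ) * (L : ℤ)) =
    I.filter (fun i : ℤ => (x - 1) / (K : ℤ) + 2 - L ≤ i ∧ i ≤ (x - 1) / (K : ℤ) + 1) := by
  apply Finset.filter_congr
  intro i _
  exact Mass_mem K L hK x i

theorem Mass_card_Icc (K L : ℕ) (x : ℤ) :
    ((Icc ((x - 1) / (K : ℤ) + 2 - L) ((x - 1) / (K : ℤ) + 1)).card : ℤ) = L := by
  rw [Int.card_Icc]
  have : (x - 1) / (K : ℤ) + 1 + 1 - ((x - 1) / (K : ℤ) + 2 - L) = (L : ℤ) := by ring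
  rw [this]
  simp

theorem Mass_le (K L : ℕ) (hK : 1 ≤ K) (x : ℤ) (I : Finset ℤ) :
    ((I.filter (fun i : ℤ =>
      (i - 1) * (K : ℤ) < x ∧ x ≤ (i - 1) * (K : ℤ) + (K : ℤ) * (L : ℤ))).card : ℤ) ≤ L := by
  rw [Mass_filter K L hK x I]
  have hcc := Mass_card_Icc K L x
  have : (I.filter (fun i : ℤ => (x - 1) / (K : ℤ) + 2 - L ≤ i ∧ i ≤ (x - 1) / (K : ℤ) + 1)) ⊆
      Icc ((x - 1) / (K : ℤ) + 2 - L) ((x - 1) / (K : ℤ) + 1) := by
    intro i hi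
    rw [Finset.mem_filter] at hi
    rw [Finset.mem_Icc]
    exact hi.2
  have h := Finset.card_le_card this
  have h' : ((I.filter (fun i : ℤ =>
      (x - 1) / (K : ℤ) + 2 - L ≤ i ∧ i ≤ (x - 1) / (K : ℤ) + 1)).card : ℤ) ≤
      ((Icc ((x - 1) / (K : ℤ) + 2 - L) ((x - 1) / (K : ℤ) + 1)).card : ℤ) := by exact_mod_cast h
  exact h'.trans hcc.le

theorem Mass_ge (K L : ℕ) (hK : 1 ≤ K) (x m : ℤ) (h1 : ((L : ℤ) - 1) * K < x)
    (h2 : x ≤ m * K) :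
    (L : ℤ) ≤ (((Icc (1 : ℤ) m).filter (fun i : ℤ =>
      (i - 1) * (K : ℤ) < x ∧ x ≤ (i - 1) * (K : ℤ) + (K : ℤ) * (L : ℤ))).card : ℤ) := by
  have hK' : (0 : ℤ) < K := by exact_mod_cast hK
  have h3 : (L : ℤ) - 1 ≤ (x - 1) / (K : ℤ) :=
    (Int.le_ediv_iff_mul_le hK').2 (by omega)
  have h4 : (x - 1) / (K : ℤ) < m := (Int.ediv_lt_iff_lt_mul hK').2 (by omega)
  rw [Mass_filter K L hK x]
  have hcc := Mass_card_Icc K L x
  have : Icc ((x - 1) / (K : ℤ) + 2 - L) ((x - 1) / (K : ℤ) + 1) ⊆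
      ((Icc (1 : ℤ) m).filter
        (fun i : ℤ => (x - 1) / (K : ℤ) + 2 - L ≤ i ∧ i ≤ (x - 1) / (K : ℤ) + 1)) := by
    intro i hi
    rw [Finset.mem_Icc] at hi
    rw [Finset.mem_filter, Finset.mem_Icc]
    refine ⟨⟨by omega, by omega⟩, hi⟩
  have h := Finset.card_le_card this
  have h' : ((Icc ((x - 1) / (K : ℤ) + 2 - L) ((x - 1) / (K : ℤ) + 1)).card : ℤ) ≤
      (((Icc (1 : ℤ) m).filter (fun i : ℤ =>
      (x - 1) / (K : ℤ) + 2 - L ≤ i ∧ i ≤ (x - 1) / (K : ℤ) + 1)).card : ℤ) := by exact_mod_cast h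
  exact hcc.ge.trans h'

theorem prf_Mass : Mass := by
  intro A n K L hK hL hLn hA hc
  rw [Mass_swap]
  constructor
  · calc ∑ x ∈ A, (((Icc (1 : ℤ) (2 * (n : ℤ) - L + 1)).filter (fun i : ℤ =>
        (i - 1) * (K : ℤ) < x ∧ x ≤ (i - 1) * (K : ℤ) + (K : ℤ) * (L : ℤ))).card : ℤ)
        ≤ ∑ x ∈ A, (L : ℤ) := Finset.sum_le_sum fun x _ => Mass_le K L hK x _
      _ = (L : ℤ) * n * K := by
        rw [Finset.sum_const, hc]
        simp only [nsmul_eq_mul]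
        push_cast
        ring
  · set m : ℤ := 2 * (n : ℤ) - L + 1 with hm
    set G := A.filter (fun x : ℤ => ((L : ℤ) - 1) * K < x ∧ x ≤ m * K) with hG
    have h1 : (L : ℤ) * (G.card : ℤ) ≤ ∑ x ∈ A, (((Icc (1 : ℤ) m).filter (fun i : ℤ =>
        (i - 1) * (K : ℤ) < x ∧ x ≤ (i - 1) * (K : ℤ) + (K : ℤ) * (L : ℤ))).card : ℤ) := by
      calc (L : ℤ) * (G.card : ℤ) = ∑ x ∈ G, (L : ℤ) := by
            rw [Finset.sum_const, nsmul_eq_mul]
            ring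
        _ ≤ ∑ x ∈ G, (((Icc (1 : ℤ) m).filter (fun i : ℤ =>
            (i - 1) * (K : ℤ) < x ∧ x ≤ (i - 1) * (K : ℤ) + (K : ℤ) * (L : ℤ))).card : ℤ) := by
            apply Finset.sum_le_sum
            intro x hx
            rw [hG, Finset.mem_filter] at hx
            exact Mass_ge K L hK x m hx.2.1 hx.2.2
        _ ≤ _ := by
            apply Finset.sum_le_sum_of_subset_of_nonneg (Finset.filter_subset _ _)
            intro x _ _
            positivity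
    have h2 : A ⊆ G ∪ (Icc (1 : ℤ) (((L : ℤ) - 1) * K) ∪ Icc (m * K + 1) (2 * (n : ℤ) * K)) := by
      intro x hx
      have hx' := hA hx
      rw [Finset.mem_Icc] at hx'
      rw [Finset.mem_union, Finset.mem_union, Finset.mem_Icc, Finset.mem_Icc, hG,
        Finset.mem_filter]
      by_cases h3 : ((L : ℤ) - 1) * K < x
      · by_cases h4 : x ≤ m * K
        · exact Or.inl ⟨hx, h3, h4⟩
        · exact Or.inr (Or.inr ⟨by omega, hx'.2⟩)
      · exact Or.inr (Or.inl ⟨hx'.1, by omega⟩)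
    have h3 := Finset.card_le_card h2
    have h4 := Finset.card_union_le G
      (Icc (1 : ℤ) (((L : ℤ) - 1) * K) ∪ Icc (m * K + 1) (2 * (n : ℤ) * K))
    have h5 := Finset.card_union_le (Icc (1 : ℤ) (((L : ℤ) - 1) * K))
      (Icc (m * K + 1) (2 * (n : ℤ) * K))
    rw [Int.card_Icc, Int.card_Icc] at h5
    have h6 : (0 : ℤ) ≤ ((L : ℤ) - 1) * K := by
      apply mul_nonneg _ (by positivity)
      have : (1 : ℤ) ≤ L := by exact_mod_cast hL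
      omega
    have h7 : 2 * (n : ℤ) * K + 1 - (m * K + 1) = ((L : ℤ) - 1) * K := by
      rw [hm]; ring
    have h8 : ((L : ℤ) - 1) * K + 1 - 1 = ((L : ℤ) - 1) * K := by ring
    rw [h7, h8] at h5
    have h9 : ((((L : ℤ) - 1) * K).toNat : ℤ) = ((L : ℤ) - 1) * K := Int.toNat_of_nonneg h6
    have h10 : ((n : ℤ) * K) ≤ G.card + (((L : ℤ) - 1) * K + ((L : ℤ) - 1) * K) := by
      have hAc : (A.card : ℤ) = (n : ℤ) * K := by rw [hc]; push_cast; ring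
      rw [← hAc]
      calc (A.card : ℤ) ≤ ((G ∪ (Icc (1 : ℤ) (((L : ℤ) - 1) * K) ∪
            Icc (m * K + 1) (2 * (n : ℤ) * K))).card : ℤ) := by exact_mod_cast h3
        _ ≤ (G.card : ℤ) + ((Icc (1 : ℤ) (((L : ℤ) - 1) * K) ∪
            Icc (m * K + 1) (2 * (n : ℤ) * K)).card : ℤ) := by exact_mod_cast h4
        _ ≤ (G.card : ℤ) + (((((L : ℤ) - 1) * K).toNat : ℤ) + ((((L : ℤ) - 1) * K).toNat : ℤ)) := by
            have : (((Icc (1 : ℤ) (((L : ℤ) - 1) * K) ∪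
              Icc (m * K + 1) (2 * (n : ℤ) * K)).card : ℕ) : ℤ) ≤
              ((((L : ℤ) - 1) * K).toNat : ℤ) + ((((L : ℤ) - 1) * K).toNat : ℤ) := by
              exact_mod_cast h5
            linarith
        _ = _ := by rw [h9]
    calc (L : ℤ) * ((n : ℤ) * K - 2 * ((L : ℤ) - 1) * K) ≤ (L : ℤ) * (G.card : ℤ) := by
          apply mul_le_mul_of_nonneg_left _ (by positivity)
          linarith
      _ ≤ _ := h1

end MP62db8e.RT
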