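import Pool.Agent.Work.MP_62db8e_nt.RT.Stmts

/-!
# MP_62db8e_nt, block RT, item Match (helper4): two matchings
-/

set_option autoImplicit false

namespace MP62db8e.RT

open Finset

/-- the starting points of class `j` -/
def Match_I (m k : ℕ) (j : Fin 2) : Finset ℕ :=
  (range m).filter (fun i => i + k < m ∧ (i / k) % 2 = (j : ℕ))

theorem Match_sum {α : Type*} [AddCommMonoid α] (m k : ℕ) (g : ℕ → α) :
    ∑ j, ∑ i ∈ Match_I m k j, g i = ∑ i ∈ range (m - k), g i := by
  have h1 : ∀ i ∈ range (m - k), (⟨(i / k) % 2, Nat.mod_lt _ (by norm_num)⟩ : Fin 2) ∈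
      (univ : Finset (Fin 2)) := fun i _ => mem_univ _
  rw [← sum_fiberwise_of_maps_to h1]
  refine sum_congr rfl fun j _ => ?_
  refine sum_congr ?_ fun _ _ => rfl
  ext i
  rw [Match_I, mem_filter, mem_filter, mem_range, mem_range, Fin.ext_iff]
  constructor
  · rintro ⟨h2, h3, h4⟩
    exact ⟨by omega, h4⟩
  · rintro ⟨h2, h3⟩
    exact ⟨by omega, by omega, h3⟩

theorem Match_ne (m k : ℕ) (hk : 1 ≤ k) (j : Fin 2) (i i' : ℕ) (hi : i ∈ Match_I m k j)
    (hi' : i' ∈ Match_I m k j) : i + k ≠ i' := by
  intro h
  rw [Match_I, mem_filter] at hi hi'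
  have h1 := hi.2.2
  have h2 := hi'.2.2
  rw [← h, Nat.add_div_right i hk] at h2
  omega

theorem Match_card (m k : ℕ) (hk : 1 ≤ k) (j : Fin 2) : 2 * (Match_I m k j).card ≤ m := by
  have h1 : Disjoint (Match_I m k j) ((Match_I m k j).image (fun i => i + k)) := by
    rw [Finset.disjoint_left]
    intro i hi hi'
    rw [mem_image] at hi'
    obtain ⟨i', h2, h3⟩ := hi'
    exact Match_ne m k hk j i' i h2 hi h3
  have h2 : ((Match_I m k j).image (fun i => i + k)).card = (Match_I m k j).card :=
    card_image_of_injective _ (fun a b h => by simpa using h)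
  have h3 : Match_I m k j ∪ (Match_I m k j).image (fun i => i + k) ⊆ range m := by
    intro i hi
    rw [mem_union, mem_image] at hi
    rw [mem_range]
    rcases hi with hi | ⟨i', h4, h5⟩
    · rw [Match_I, mem_filter, mem_range] at hi
      exact hi.1
    · rw [Match_I, mem_filter, mem_range] at h4
      have := h4.2.1
      omega
  have h4 := card_le_card h3
  rw [card_union_of_disjoint h1, h2, card_range] at h4
  omega

/-- the matching of the pairs `(u i, v i)` -/
theorem Match_mat (m k : ℕ) (hk : 1 ≤ k) (j : Fin 2) :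
    IsMatching m ((Match_I m k j).image (fun i => (i + k, i))) ∧
    IsMatching m ((Match_I m k j).image (fun i => (i, i + k))) := by
  have hlt : ∀ i ∈ Match_I m k j, i < m ∧ i + k < m := by
    intro i hi
    rw [Match_I, mem_filter, mem_range] at hi
    exact ⟨hi.1, hi.2.1⟩
  constructor
  · constructor
    · intro e he
      rw [mem_image] at he
      obtain ⟨i, hi, rfl⟩ := he
      have := hlt i hi
      exact ⟨this.2, this.1, by simp; omega⟩
    · intro e he f hf hne
      rw [mem_image] at he hf
      obtain ⟨i, hi, rfl⟩ := he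
      obtain ⟨i', hi', rfl⟩ := hf
      have h1 : i ≠ i' := fun h => hne (by rw [h])
      have h2 := Match_ne m k hk j i i' hi hi'
      have h3 := Match_ne m k hk j i' i hi' hi
      refine ⟨?_, h2, ?_, h1⟩
      · simpa using h1
      · exact fun h => h3 h.symm
  · constructor
    · intro e he
      rw [mem_image] at he
      obtain ⟨i, hi, rfl⟩ := he
      have := hlt i hi
      exact ⟨this.1, this.2, by simp; omega⟩
    · intro e he f hf hne
      rw [mem_image] at he hf
      obtain ⟨i, hi, rfl⟩ := he
      obtain ⟨i', hi', rfl⟩ := hf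
      have h1 : i ≠ i' := fun h => hne (by rw [h])
      have h2 := Match_ne m k hk j i i' hi hi'
      have h3 := Match_ne m k hk j i' i hi' hi
      refine ⟨h1, ?_, h2, ?_⟩
      · exact fun h => h3 h.symm
      · simpa using h1

theorem Match_injL (k : ℕ) : Function.Injective (fun i : ℕ => (i + k, i)) := by
  intro a b h
  exact (Prod.ext_iff.1 h).2

theorem Match_injR (k : ℕ) : Function.Injective (fun i : ℕ => (i, i + k)) := by
  intro a b h
  exact (Prod.ext_iff.1 h).1

theorem Match_cntL (m k : ℕ) (R : Finset ℕ) :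
    ((range m).filter (fun i => i + k < m ∧ i + k ∈ R ∧ i ∉ R)).card =
      ∑ j, cut ((Match_I m k j).image (fun i => (i + k, i))) R := by
  have h1 : ∀ j, cut ((Match_I m k j).image (fun i => (i + k, i))) R =
      ∑ i ∈ Match_I m k j, if i + k ∈ R ∧ i ∉ R then 1 else 0 := by
    intro j
    rw [cut, card_filter, sum_image (fun a _ b _ h => Match_injL k h)]
  rw [sum_congr rfl fun j _ => h1 j, Match_sum, ← card_filter]
  congr 1
  ext i
  rw [mem_filter, mem_filter, mem_range, mem_range]
  constructor
  · rintro ⟨h2, h3, h4⟩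
    exact ⟨by omega, h4⟩
  · rintro ⟨h2, h3⟩
    exact ⟨by omega, by omega, h3⟩

theorem Match_cntR (m k : ℕ) (R : Finset ℕ) :
    ((range m).filter (fun i => i + k < m ∧ i ∈ R ∧ i + k ∉ R)).card =
      ∑ j, cut ((Match_I m k j).image (fun i => (i, i + k))) R := by
  have h1 : ∀ j, cut ((Match_I m k j).image (fun i => (i, i + k))) R =
      ∑ i ∈ Match_I m k j, if i ∈ R ∧ i + k ∉ R then 1 else 0 := by
    intro j
    rw [cut, card_filter, sum_image (fun a _ b _ h => Match_injR k h)]
  rw [sum_congr rfl fun j _ => h1 j, Match_sum, ← card_filter]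
  congr 1
  ext i
  rw [mem_filter, mem_filter, mem_range, mem_range]
  constructor
  · rintro ⟨h2, h3, h4⟩
    exact ⟨by omega, h4⟩
  · rintro ⟨h2, h3⟩
    exact ⟨by omega, by omega, h3⟩

theorem prf_Match : Match := by
  intro m k hk
  refine ⟨fun j => (Match_I m k j).image (fun i => (i + k, i)),
    fun j => (Match_I m k j).image (fun i => (i, i + k)), ?_, ?_, ?_⟩
  · intro j
    refine ⟨(Match_mat m k hk j).1, ?_, (Match_mat m k hk j).2, ?_⟩
    · rw [card_image_of_injective _ (Match_injL k)]
      exact Match_card m k hk j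
    · rw [card_image_of_injective _ (Match_injR k)]
      exact Match_card m k hk j
  · intro R
    exact ⟨Match_cntL m k R, Match_cntR m k R⟩
  · intro f
    constructor
    · rw [← Match_sum m k (fun i => f (i + k) i)]
      refine sum_congr rfl fun j _ => ?_
      rw [sum_image (fun a _ b _ h => Match_injL k h)]
    · rw [← Match_sum m k (fun i => f i (i + k))]
      refine sum_congr rfl fun j _ => ?_
      rw [sum_image (fun a _ b _ h => Match_injR k h)]

end MP62db8e.RT
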