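import Pool.Agent.Work.MP_62db8e_nt.RT.Stmts

/-!
# MP_62db8e_nt, block RT, item Num (helper61)
-/

set_option autoImplicit false

namespace MP62db8e.RT

theorem prf_Num : Num := by
  intro n hn
  have hn1 : (1 : ℝ) ≤ n := by exact_mod_cast hn
  have hn0 : (0 : ℝ) < n := by linarith
  obtain ⟨s, hs⟩ : ∃ s : ℝ, s = Real.sqrt n := ⟨_, rfl⟩
  have hs1 : 1 ≤ s := by
    rw [hs]
    exact Real.one_le_sqrt.2 hn1
  have hss : s * s = n := by
    rw [hs]
    exact Real.mul_self_sqrt hn0.le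
  have hsn : s ≤ n := by nlinarith
  have hL1 : s ≤ (⌈Real.sqrt (n : ℝ)⌉₊ : ℝ) := by
    rw [hs]
    exact Nat.le_ceil _
  have hL2 : (⌈Real.sqrt (n : ℝ)⌉₊ : ℝ) < s + 1 := by
    rw [hs]
    exact Nat.ceil_lt_add_one (Real.sqrt_nonneg _)
  have hL3 : ⌈Real.sqrt (n : ℝ)⌉₊ ≤ n := by
    apply Nat.ceil_le.2
    rw [← hs]
    exact hsn
  obtain ⟨L, hL⟩ : ∃ L : ℕ, L = ⌈Real.sqrt (n : ℝ)⌉₊ := ⟨_, rfl⟩
  rw [← hL] at hL1 hL2 hL3
  have hLpos : 1 ≤ L := by
    have h : (1 : ℝ) ≤ L := hs1.trans hL1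
    exact_mod_cast h
  refine ⟨L, hLpos, hL3, ?_⟩
  have hL1R : (1 : ℝ) ≤ L := by exact_mod_cast hLpos
  have hLn : (L : ℝ) ≤ n := by exact_mod_cast hL3
  obtain ⟨l, hl⟩ : ∃ l : ℝ, l = Real.log ((n : ℝ) + 1) := ⟨_, rfl⟩
  have hl2 : 0.693 ≤ l := by
    have h1 := Real.log_two_gt_d9
    have h2 : Real.log 2 ≤ l := by
      rw [hl]
      exact Real.log_le_log (by norm_num) (by linarith)
    linarith
  obtain ⟨Y, hY⟩ : ∃ Y : ℝ, Y = Real.sqrt (n * Real.log ((n : ℝ) + 1)) := ⟨_, rfl⟩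
  have hY0 : 0 ≤ Y := by
    rw [hY]
    exact Real.sqrt_nonneg _
  have hYY : Y * Y = n * l := by
    rw [hY, hl]
    apply Real.mul_self_sqrt
    rw [← hl]
    positivity
  -- the first and the last term
  have h1 : 3 * (n : ℝ) / L ≤ 3 * s := by
    rw [div_le_iff₀ (by linarith)]
    nlinarith
  have h2 : 3 * ((L : ℝ) - 1) ≤ 3 * s := by linarith
  have h3 : s ≤ 1.204 * Y := by
    have h4 : (n : ℝ) ≤ 1.449616 * (n * l) := by nlinarith
    rw [hs]
    apply Real.sqrt_le_iff.2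
    refine ⟨by positivity, ?_⟩
    calc (n : ℝ) ≤ 1.449616 * (n * l) := h4
      _ = (1.204 * Y) ^ 2 := by rw [← hYY]; ring
  -- the square root
  have h5 : Real.sqrt (2 * (2 * n - L + 1 : ℝ) * Real.log (4 * (2 * n - L + 1 : ℝ))) ≤
      3.4642 * Y := by
    apply Real.sqrt_le_iff.2
    refine ⟨by positivity, ?_⟩
    have h6 : (2 * n - L + 1 : ℝ) ≤ 2 * n := by linarith
    have h7 : (1 : ℝ) ≤ (2 * n - L + 1 : ℝ) := by linarith
    have h8 : Real.log (4 * (2 * n - L + 1 : ℝ)) ≤ 3 * l := by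
      have h9 : (4 * (2 * n - L + 1 : ℝ)) ≤ ((n : ℝ) + 1) ^ 3 := by
        have h10 : (8 : ℝ) * n ≤ ((n : ℝ) + 1) ^ 3 := by
          have h12 := mul_nonneg (sub_nonneg.2 hn1) hn0.le
          have h13 := mul_nonneg h12 hn0.le
          nlinarith
        linarith
      calc Real.log (4 * (2 * n - L + 1 : ℝ)) ≤ Real.log (((n : ℝ) + 1) ^ 3) :=
            Real.log_le_log (by linarith) h9
        _ = 3 * l := by
            rw [Real.log_pow, hl]
            norm_num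
    have h11 : 0 ≤ Real.log (4 * (2 * n - L + 1 : ℝ)) := Real.log_nonneg (by linarith)
    calc 2 * (2 * n - L + 1 : ℝ) * Real.log (4 * (2 * n - L + 1 : ℝ))
        ≤ (2 * (2 * n)) * (3 * l) := by
          apply mul_le_mul _ h8 h11 (by positivity)
          linarith
      _ = 12 * (Y * Y) := by rw [hYY]; ring
      _ ≤ (3.4642 * Y) ^ 2 := by nlinarith [mul_nonneg hY0 hY0]
  rw [← hY]
  linarith

end MP62db8e.RT
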