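import Pool.Agent.Work.MP_62db8e_nt.RT.Stmts

/-!
Item Round of block RT (helper59): random rounding.
-/

set_option autoImplicit false

namespace MP62db8e.RT

open Finset

theorem Round_wt_nonneg {m : ℕ} {p : ℕ → ℝ} (hp : ∀ i, 0 ≤ p i ∧ p i ≤ 1) (R : Finset ℕ) :
    0 ≤ wt m p R := by
  unfold wt
  exact mul_nonneg (prod_nonneg fun i _ => (hp i).1)
    (prod_nonneg fun i _ => by linarith [(hp i).2])

theorem Round_total (h1 : WSum) (m : ℕ) (p : ℕ → ℝ) :
    ∑ R ∈ (range m).powerset, wt m p R = 1 := by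
  have h := h1 m p ∅ ∅ (empty_subset _) (empty_subset _) (disjoint_empty_left _)
  simp only [prod_empty, mul_one] at h
  rw [← h]
  refine sum_congr ?_ fun _ _ => rfl
  symm
  apply filter_true_of_mem
  intro R _
  exact ⟨empty_subset _, disjoint_empty_right _⟩

theorem Round_exp {m : ℕ} (hm : 1 ≤ m) :
    Real.exp (-(Real.sqrt (2 * m * Real.log (4 * m)) ^ 2 / (2 * m))) = 1 / (4 * m) := by
  have hm' : (1 : ℝ) ≤ m := by exact_mod_cast hm
  have hlog : 0 ≤ Real.log (4 * m) := Real.log_nonneg (by linarith)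
  have h0 : 0 ≤ 2 * (m : ℝ) * Real.log (4 * m) := by positivity
  rw [Real.sq_sqrt h0]
  have h1 : 2 * (m : ℝ) * Real.log (4 * m) / (2 * m) = Real.log (4 * m) := by
    field_simp
  rw [h1, Real.exp_neg, Real.exp_log (by linarith), one_div]

theorem prf_Round (h1 : WSum) (h2 : Tail2) (h3 : Tail1) (h4 : Match) : Round := by
  classical
  intro m p hm hp
  have hm' : (1 : ℝ) ≤ m := by exact_mod_cast hm
  set t : ℝ := Real.sqrt (2 * m * Real.log (4 * m)) with ht
  have ht0 : 0 ≤ t := Real.sqrt_nonneg _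
  have hexp : Real.exp (-(t ^ 2 / (2 * m))) = 1 / (4 * m) := Round_exp hm
  have hch : ∀ k : ℕ, ∃ E F : Fin 2 → Finset (ℕ × ℕ), 1 ≤ k →
      ((∀ j, IsMatching m (E j) ∧ 2 * (E j).card ≤ m ∧ IsMatching m (F j) ∧
        2 * (F j).card ≤ m) ∧
      (∀ R : Finset ℕ,
        (((range m).filter (fun i => i + k < m ∧ i + k ∈ R ∧ i ∉ R)).card = ∑ j, cut (E j) R) ∧
        ((range m).filter (fun i => i + k < m ∧ i ∈ R ∧ i + k ∉ R)).card = ∑ j, cut (F j) R) ∧
      ∀ f : ℕ → ℕ → ℝ,
        (∑ j, ∑ e ∈ E j, f e.1 e.2 = ∑ i ∈ range (m - k), f (i + k) i) ∧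
        ∑ j, ∑ e ∈ F j, f e.1 e.2 = ∑ i ∈ range (m - k), f i (i + k)) := by
    intro k
    by_cases hk : 1 ≤ k
    · obtain ⟨E, F, h⟩ := h4 m k hk
      exact ⟨E, F, fun _ => h⟩
    · exact ⟨fun _ => ∅, fun _ => ∅, fun h => absurd h hk⟩
  choose E F hEF using hch
  by_contra hcon
  let PE : ℕ → Fin 2 → Finset ℕ → Prop := fun k j R =>
    (∑ e ∈ E k j, p e.1 * (1 - p e.2)) + t / 2 < (cut (E k j) R : ℝ)
  let PF : ℕ → Fin 2 → Finset ℕ → Prop := fun k j R =>
    (∑ e ∈ F k j, p e.1 * (1 - p e.2)) + t / 2 < (cut (F k j) R : ℝ)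
  let P1 : Finset ℕ → Prop := fun R => (∑ i ∈ range m, p i) + t < (R.card : ℝ)
  let P2 : Finset ℕ → Prop := fun R => (R.card : ℝ) < (∑ i ∈ range m, p i) - t
  have hbad : ∀ R ∈ (range m).powerset,
      (∃ k ∈ Icc 1 (m - 1), ∃ j, PE k j R ∨ PF k j R) ∨ P1 R ∨ P2 R := by
    intro R hR
    by_contra hno
    push Not at hno
    obtain ⟨hA, hB, hC⟩ := hno
    apply hcon
    refine ⟨R, mem_powerset.mp hR, ?_, ?_⟩
    · simp only [P1, P2, not_lt] at hB hC
      rw [abs_le]
      constructor <;> linarith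
    · intro k hk
      by_cases hkm : k < m
      · have hk' : k ∈ Icc 1 (m - 1) := by
          rw [mem_Icc]
          omega
        obtain ⟨-, hc, hf⟩ := hEF k hk
        have hA' := hA k hk'
        constructor
        · rw [(hc R).1, ← (hf fun a b => p a * (1 - p b)).1, Nat.cast_sum]
          have hj : ∀ j : Fin 2, (cut (E k j) R : ℝ) ≤
              (∑ e ∈ E k j, p e.1 * (1 - p e.2)) + t / 2 := fun j => not_lt.mp (hA' j).1
          rw [Fin.sum_univ_two, Fin.sum_univ_two]
          linarith [hj 0, hj 1]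
        · rw [(hc R).2, ← (hf fun a b => p a * (1 - p b)).2, Nat.cast_sum]
          have hj : ∀ j : Fin 2, (cut (F k j) R : ℝ) ≤
              (∑ e ∈ F k j, p e.1 * (1 - p e.2)) + t / 2 := fun j => not_lt.mp (hA' j).2
          rw [Fin.sum_univ_two, Fin.sum_univ_two]
          linarith [hj 0, hj 1]
      · have h0 : m - k = 0 := by omega
        have e1 : (range m).filter (fun i => i + k < m ∧ i + k ∈ R ∧ i ∉ R) = ∅ := by
          apply filter_false_of_mem
          intro i _ h
          omega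
        have e2 : (range m).filter (fun i => i + k < m ∧ i ∈ R ∧ i + k ∉ R) = ∅ := by
          apply filter_false_of_mem
          intro i _ h
          omega
        rw [e1, e2, h0]
        simp only [card_empty, Nat.cast_zero, range_zero, sum_empty, zero_add]
        exact ⟨ht0, ht0⟩
  have hpt : ∀ R ∈ (range m).powerset, wt m p R ≤
      (∑ k ∈ Icc 1 (m - 1), ∑ j : Fin 2, ((if PE k j R then wt m p R else 0) +
        (if PF k j R then wt m p R else 0))) +
      ((if P1 R then wt m p R else 0) + (if P2 R then wt m p R else 0)) := by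
    intro R hR
    have hw : 0 ≤ wt m p R := Round_wt_nonneg hp R
    have hite : ∀ Q : Prop, [Decidable Q] → 0 ≤ (if Q then wt m p R else 0) := by
      intro Q _
      split_ifs
      · exact hw
      · exact le_refl 0
    have hS : 0 ≤ ∑ k ∈ Icc 1 (m - 1), ∑ j : Fin 2, ((if PE k j R then wt m p R else 0) +
        (if PF k j R then wt m p R else 0)) :=
      sum_nonneg fun k _ => sum_nonneg fun j _ => add_nonneg (hite _) (hite _)
    rcases hbad R hR with ⟨k, hk, j, hj⟩ | h | h
    · have e1 : (if PE k j R then wt m p R else 0) + (if PF k j R then wt m p R else 0) ≤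
          ∑ k ∈ Icc 1 (m - 1), ∑ j : Fin 2, ((if PE k j R then wt m p R else 0) +
            (if PF k j R then wt m p R else 0)) := by
        refine le_trans ?_ (single_le_sum (f := fun k => ∑ j : Fin 2,
          ((if PE k j R then wt m p R else 0) + (if PF k j R then wt m p R else 0)))
          (fun k _ => sum_nonneg fun j _ => add_nonneg (hite _) (hite _)) hk)
        exact single_le_sum (f := fun j : Fin 2 =>
          ((if PE k j R then wt m p R else 0) + (if PF k j R then wt m p R else 0)))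
          (fun j _ => add_nonneg (hite _) (hite _)) (mem_univ j)
      have e2 : wt m p R ≤
          (if PE k j R then wt m p R else 0) + (if PF k j R then wt m p R else 0) := by
        rcases hj with h | h
        · rw [if_pos h]
          linarith [hite (PF k j R)]
        · rw [if_pos h]
          linarith [hite (PE k j R)]
      linarith [hite (P1 R), hite (P2 R)]
    · have e3 : (if P1 R then wt m p R else 0) = wt m p R := if_pos h
      linarith [hite (P2 R)]
    · have e3 : (if P2 R then wt m p R else 0) = wt m p R := if_pos h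
      linarith [hite (P1 R)]
  have hsum := sum_le_sum hpt
  rw [Round_total h1 m p, sum_add_distrib, sum_comm] at hsum
  have hT := h3 m p t hm hp ht0
  rw [hexp] at hT
  have hb1 : ∑ R ∈ (range m).powerset, ((if P1 R then wt m p R else 0) +
      (if P2 R then wt m p R else 0)) ≤ 1 / (4 * m) + 1 / (4 * m) := by
    rw [sum_add_distrib, ← sum_filter, ← sum_filter]
    exact add_le_add hT.1 hT.2
  have hb2 : ∀ k ∈ Icc 1 (m - 1), ∑ R ∈ (range m).powerset, ∑ j : Fin 2,
      ((if PE k j R then wt m p R else 0) + (if PF k j R then wt m p R else 0)) ≤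
      4 * (1 / (4 * m)) := by
    intro k hk
    have hk1 : 1 ≤ k := (mem_Icc.mp hk).1
    obtain ⟨hM, -, -⟩ := hEF k hk1
    rw [sum_comm]
    have hj : ∀ j : Fin 2, ∑ R ∈ (range m).powerset,
        ((if PE k j R then wt m p R else 0) + (if PF k j R then wt m p R else 0)) ≤
        1 / (4 * m) + 1 / (4 * m) := by
      intro j
      rw [sum_add_distrib, ← sum_filter, ← sum_filter]
      have a1 := h2 m p (E k j) t hm hp (hM j).1 (hM j).2.1 ht0
      have a2 := h2 m p (F k j) t hm hp (hM j).2.2.1 (hM j).2.2.2 ht0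
      rw [hexp] at a1 a2
      exact add_le_add a1 a2
    rw [Fin.sum_univ_two]
    linarith [hj 0, hj 1]
  have hb3 := sum_le_sum hb2
  rw [sum_const, Nat.card_Icc, nsmul_eq_mul] at hb3
  have hcast : ((m - 1 + 1 - 1 : ℕ) : ℝ) = m - 1 := by
    have : m - 1 + 1 - 1 = m - 1 := by omega
    rw [this, Nat.cast_sub hm, Nat.cast_one]
  rw [hcast] at hb3
  have hfin : (m - 1 : ℝ) * (4 * (1 / (4 * m))) + (1 / (4 * m) + 1 / (4 * m)) < 1 := by
    have hm0 : (0 : ℝ) < m := by linarith
    rw [← sub_pos]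
    have : 1 - ((m - 1 : ℝ) * (4 * (1 / (4 * m))) + (1 / (4 * m) + 1 / (4 * m))) =
        1 / (2 * m) := by
      field_simp
      ring
    rw [this]
    positivity
  linarith

end MP62db8e.RT
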