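import Mathlib
import Pool.Agent.Work.MP_62db8e_nt.RT.Stmts

/-!
# Block RT, item Step
-/

set_option autoImplicit false

namespace MP62db8e.RT

open Finset

theorem Step_sum (f : ℤ → ℝ) (m : ℕ) (z : ℤ) (hz : z = m) :
    ∑ i ∈ Icc (1 : ℤ) z, f i = ∑ j ∈ range m, f ((j : ℤ) + 1) := by
  have h1 : Icc (1 : ℤ) z = (range m).image (fun j : ℕ => (j : ℤ) + 1) := by
    ext i
    rw [mem_Icc, mem_image, hz]
    constructor
    · rintro ⟨a, b⟩
      refine ⟨(i - 1).toNat, ?_, ?_⟩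
      · rw [mem_range]
        omega
      · show (((i - 1).toNat : ℕ) : ℤ) + 1 = i
        omega
    · rintro ⟨j, hj, rfl⟩
      rw [mem_range] at hj
      constructor <;> omega
  rw [h1, sum_image]
  intro a _ b _ hab
  have : (a : ℤ) + 1 = (b : ℤ) + 1 := hab
  omega

theorem Step_floor {z : ℤ} {x : ℝ} (h : (z : ℝ) ≤ x) : z ≤ (⌊x⌋₊ : ℤ) := by
  rw [← Int.floor_toNat]
  exact (Int.le_floor.2 h).trans (Int.self_le_toNat _)

theorem prf_Step (h1 : MEx) (h2 : MLeN) (h3 : Fix) (h4 : Win) (h5 : Mass) (h6 : Compl)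
    (h7 : Round) (h8 : Cnt) : Step := by
  intro n K L hn hK hL hLn
  obtain ⟨A, B, ⟨hdis, hun, hcA, -⟩, hov⟩ := h1 (n * K)
  have hun' : A ∪ B = Icc 1 (2 * (n : ℤ) * K) := by
    rw [hun]
    congr 1
    push_cast
    ring
  have hAsub : A ⊆ Icc 1 (2 * (n : ℤ) * K) := by
    rw [← hun']
    exact subset_union_left
  obtain ⟨m0, hm0⟩ : ∃ m0 : ℕ, m0 = M (n * K) := ⟨_, rfl⟩
  have hm0le : m0 ≤ n * K := by rw [hm0]; exact h2 _
  rw [← hm0] at hov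
  obtain ⟨m, hm⟩ : ∃ m : ℕ, m = 2 * n - L + 1 := ⟨_, rfl⟩
  have hmz : (m : ℤ) = 2 * (n : ℤ) - L + 1 := by omega
  have hmr : (m : ℝ) = 2 * (n : ℝ) - L + 1 := by exact_mod_cast hmz
  have hm1 : 1 ≤ m := by omega
  have hm2 : m ≤ 2 * n := by omega
  have hKr : (0 : ℝ) < K := by exact_mod_cast hK
  have hLr : (0 : ℝ) < L := by exact_mod_cast hL
  have hLr1 : (1 : ℝ) ≤ L := by exact_mod_cast hL
  have hKL : (0 : ℝ) < (K : ℝ) * L := mul_pos hKr hLr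
  obtain ⟨p, hp⟩ : ∃ p : ℕ → ℝ, p = fun j : ℕ => (win A K L ((j : ℤ) + 1) : ℝ) / ((K : ℝ) * L) :=
    ⟨_, rfl⟩
  have hpj : ∀ j, p j = (win A K L ((j : ℤ) + 1) : ℝ) / ((K : ℝ) * L) := fun j => by rw [hp]
  have hp01 : ∀ i, 0 ≤ p i ∧ p i ≤ 1 := by
    intro i
    rw [hpj]
    have h9 : ((win A K L ((i : ℤ) + 1) : ℕ) : ℝ) ≤ (K : ℝ) * L := by
      exact_mod_cast h6.2 A K L ((i : ℤ) + 1)
    exact ⟨by positivity, (div_le_one hKL).2 h9⟩
  have hq : ∀ j, j < m → 1 - p j = (win B K L ((j : ℤ) + 1) : ℝ) / ((K : ℝ) * L) := by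
    intro j hj
    have h9 := h6.1 A B n K L hdis hun' ((j : ℤ) + 1) (by omega) (by omega)
    have h10 : ((win A K L ((j : ℤ) + 1) : ℕ) : ℝ) + ((win B K L ((j : ℤ) + 1) : ℕ) : ℝ) =
        (K : ℝ) * L := by exact_mod_cast h9
    rw [hpj, eq_div_iff hKL.ne', sub_mul, div_mul_cancel₀ _ hKL.ne']
    linarith
  obtain ⟨R, hR, hRc, hRk⟩ := h7 m p hm1 hp01
  obtain ⟨t, ht⟩ : ∃ t : ℝ, t = Real.sqrt (2 * m * Real.log (4 * m)) := ⟨_, rfl⟩
  rw [← ht] at hRc hRk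
  have ht0 : 0 ≤ t := by rw [ht]; exact Real.sqrt_nonneg _
  obtain ⟨S, hS⟩ : ∃ S : ℝ, S = (m0 : ℝ) / K * (((L : ℝ) + 1) / L) ^ 2 := ⟨_, rfl⟩
  have hS0 : 0 ≤ S := by rw [hS]; positivity
  -- the scaled bound
  have hscale : ∀ s : ℝ, s ≤ (m0 : ℝ) * (K * ((L : ℝ) + 1) ^ 2) →
      s / (((K : ℝ) * L) * (K * L)) ≤ S := by
    intro s hs
    have e1 : S = (m0 : ℝ) * (K * ((L : ℝ) + 1) ^ 2) / (((K : ℝ) * L) * (K * L)) := by
      rw [hS]
      field_simp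
    rw [e1]
    exact div_le_div_of_nonneg_right hs (by positivity)
  have hfst : ∀ k : ℕ, 1 ≤ k → ∑ i ∈ range (m - k), p (i + k) * (1 - p i) ≤ S := by
    intro k _
    have e1 : ∑ i ∈ range (m - k), p (i + k) * (1 - p i) =
        (∑ i ∈ range (m - k), (win A K L (((i : ℤ) + 1) + k) : ℝ) *
          (win B K L ((i : ℤ) + 1) : ℝ)) / (((K : ℝ) * L) * (K * L)) := by
      rw [sum_div]
      refine sum_congr rfl fun i hi => ?_
      rw [mem_range] at hi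
      rw [hq i (by omega), hpj, div_mul_div_comm]
      have e2 : (((i + k : ℕ) : ℤ) + 1) = ((i : ℤ) + 1) + k := by push_cast; ring
      rw [e2]
    rw [e1]
    apply hscale
    have h9 := h4 A B m0 K L hK hL hov k ((range (m - k)).image (fun i : ℕ => (i : ℤ) + 1))
    rw [sum_image (by
      intro a _ b _ hab
      have : (a : ℤ) + 1 = (b : ℤ) + 1 := hab
      omega)] at h9
    exact_mod_cast h9
  have hsnd : ∀ k : ℕ, 1 ≤ k → ∑ i ∈ range (m - k), p i * (1 - p (i + k)) ≤ S := by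
    intro k _
    have e1 : ∑ i ∈ range (m - k), p i * (1 - p (i + k)) =
        (∑ i ∈ range (m - k), (win A K L (((i : ℤ) + k + 1) + -(k : ℤ)) : ℝ) *
          (win B K L ((i : ℤ) + k + 1) : ℝ)) / (((K : ℝ) * L) * (K * L)) := by
      rw [sum_div]
      refine sum_congr rfl fun i hi => ?_
      rw [mem_range] at hi
      rw [hq (i + k) (by omega), hpj, div_mul_div_comm]
      have e2 : (((i + k : ℕ) : ℤ) + 1) = (i : ℤ) + k + 1 := by push_cast; ring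
      have e3 : ((i : ℤ) + k + 1) + -(k : ℤ) = (i : ℤ) + 1 := by ring
      rw [e2, e3]
    rw [e1]
    apply hscale
    have h9 := h4 A B m0 K L hK hL hov (-(k : ℤ))
      ((range (m - k)).image (fun i : ℕ => (i : ℤ) + k + 1))
    rw [sum_image (by
      intro a _ b _ hab
      have : (a : ℤ) + k + 1 = (b : ℤ) + k + 1 := hab
      omega)] at h9
    exact_mod_cast h9
  obtain ⟨Y, hY⟩ : ∃ Y : ℕ, Y = ⌊S + t⌋₊ := ⟨_, rfl⟩
  have hYr : (Y : ℝ) ≤ S + t := by rw [hY]; exact Nat.floor_le (by linarith)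
  obtain ⟨c1, c2, c3⟩ := h8 n m Y R hm2 hR (by
    intro k hk
    obtain ⟨a, b⟩ := hRk k hk
    rw [hY]
    exact ⟨Nat.le_floor (a.trans (by linarith [hfst k hk])),
      Nat.le_floor (b.trans (by linarith [hsnd k hk]))⟩)
  -- the mass
  have hsum : ∑ i ∈ range m, p i =
      (∑ i ∈ Icc (1 : ℤ) (2 * (n : ℤ) - L + 1), (win A K L i : ℝ)) / ((K : ℝ) * L) := by
    rw [Step_sum (fun i => (win A K L i : ℝ)) m _ hmz.symm, sum_div]
    exact sum_congr rfl fun i _ => hpj i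
  obtain ⟨M1, M2⟩ := h5 A n K L hK hL hLn hAsub hcA
  have M1' : (∑ i ∈ Icc (1 : ℤ) (2 * (n : ℤ) - L + 1), (win A K L i : ℝ)) ≤ (L : ℝ) * n * K := by
    exact_mod_cast M1
  have M2' : (L : ℝ) * ((n : ℝ) * K - 2 * ((L : ℝ) - 1) * K) ≤
      ∑ i ∈ Icc (1 : ℤ) (2 * (n : ℤ) - L + 1), (win A K L i : ℝ) := by
    exact_mod_cast M2
  have hs1 : ∑ i ∈ range m, p i ≤ n := by
    rw [hsum, div_le_iff₀ hKL]
    linarith
  have hs2 : (n : ℝ) - 2 * ((L : ℝ) - 1) ≤ ∑ i ∈ range m, p i := by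
    rw [hsum, le_div_iff₀ hKL]
    linarith
  obtain ⟨r1, r2⟩ := abs_le.1 hRc
  obtain ⟨D, hD⟩ : ∃ D : ℕ, D = ⌊t + 2 * ((L : ℝ) - 1)⌋₊ := ⟨_, rfl⟩
  have hD0 : 0 ≤ t + 2 * ((L : ℝ) - 1) := by linarith
  have hDr : (D : ℝ) ≤ t + 2 * ((L : ℝ) - 1) := by rw [hD]; exact Nat.floor_le hD0
  have hfin := h3 n (Y + (2 * n - m)) D _ c1 c3 (by
      rw [c2, hD]
      refine Step_floor ?_
      push_cast
      linarith) (by
      rw [c2, hD]
      refine Step_floor ?_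
      push_cast
      linarith)
  have hfin' : (M n : ℝ) ≤ (Y : ℝ) + ((2 * n - m : ℕ) : ℝ) + D := by exact_mod_cast hfin
  have hLm : ((2 * n - m : ℕ) : ℝ) = (L : ℝ) - 1 := by
    have : 2 * n - m = L - 1 := by omega
    rw [this]
    push_cast [Nat.cast_sub hL]
    ring
  rw [hLm] at hfin'
  have hSb : S ≤ (m0 : ℝ) / K + 3 * n / L := by
    have e1 : (m0 : ℝ) / K ≤ n := by
      rw [div_le_iff₀ hKr]
      exact_mod_cast hm0le
    have e2 : (((L : ℝ) + 1) / L) ^ 2 ≤ 1 + 3 / L := by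
      have e3 : (((L : ℝ) + 1) / L) ^ 2 = 1 + 2 / L + 1 / L * (1 / L) := by
        field_simp
        ring
      have e4 : 1 / (L : ℝ) ≤ 1 := (div_le_one hLr).2 hLr1
      have e5 : 1 / (L : ℝ) * (1 / L) ≤ 1 / L * 1 :=
        mul_le_mul_of_nonneg_left e4 (by positivity)
      have e6 : (3 : ℝ) / L = 2 / L + 1 / L := by ring
      rw [e3, e6]
      linarith
    have e7 : (0 : ℝ) ≤ (m0 : ℝ) / K := by positivity
    calc S = (m0 : ℝ) / K * (((L : ℝ) + 1) / L) ^ 2 := hS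
      _ ≤ (m0 : ℝ) / K * (1 + 3 / L) := mul_le_mul_of_nonneg_left e2 e7
      _ = (m0 : ℝ) / K + (m0 : ℝ) / K * (3 / L) := by ring
      _ ≤ (m0 : ℝ) / K + n * (3 / L) := by
          have := mul_le_mul_of_nonneg_right e1 (by positivity : (0 : ℝ) ≤ 3 / L)
          linarith
      _ = (m0 : ℝ) / K + 3 * n / L := by ring
  rw [← hm0, ← hmr, ← ht]
  linarith

end MP62db8e.RT
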