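import Mathlib
import Pool.Agent.Work.MP_62db8e_nt.RT.Stmts

/-!
# MP_62db8e_nt, block RT, item Tail1 (helper76)
-/

set_option autoImplicit false

namespace MP62db8e.RT

open Finset

theorem Tail1_nonneg (m : ℕ) (p : ℕ → ℝ) (hp : ∀ i, 0 ≤ p i ∧ p i ≤ 1) (R : Finset ℕ) :
    0 ≤ wt m p R := by
  unfold wt
  exact mul_nonneg (Finset.prod_nonneg fun i _ => (hp i).1)
    (Finset.prod_nonneg fun i _ => by linarith [(hp i).2])

theorem Tail1_gen (m : ℕ) (p : ℕ → ℝ) (x : ℝ) :
    ∑ R ∈ (range m).powerset, wt m p R * x ^ R.card = ∏ i ∈ range m, (1 + p i * (x - 1)) := by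
  have h1 : ∀ i ∈ range m, 1 + p i * (x - 1) = x * p i + (1 - p i) := fun i _ => by ring
  rw [Finset.prod_congr rfl h1, Finset.prod_add]
  refine Finset.sum_congr rfl fun R _ => ?_
  unfold wt
  rw [Finset.prod_mul_distrib, Finset.prod_const]
  ring

theorem Tail1_le (h1 : Hoef) (m : ℕ) (p : ℕ → ℝ) (hp : ∀ i, 0 ≤ p i ∧ p i ≤ 1) (l : ℝ) :
    ∑ R ∈ (range m).powerset, wt m p R * Real.exp l ^ R.card ≤
      Real.exp (l * (∑ i ∈ range m, p i) + m * (l ^ 2 / 4)) := by
  rw [Tail1_gen]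
  calc ∏ i ∈ range m, (1 + p i * (Real.exp l - 1))
      ≤ ∏ i ∈ range m, Real.exp (l * p i + l ^ 2 / 4) := by
        refine Finset.prod_le_prod (fun i _ => ?_) fun i _ => h1 _ _ (hp i).1 (hp i).2
        have e1 := mul_nonneg (hp i).1 (Real.exp_pos l).le
        have e2 := (hp i).2
        linarith
    _ = Real.exp (l * (∑ i ∈ range m, p i) + m * (l ^ 2 / 4)) := by
        rw [← Real.exp_sum, Finset.sum_add_distrib, ← Finset.mul_sum]
        simp

theorem Tail1_core (h1 : Hoef) (m : ℕ) (p : ℕ → ℝ) (hp : ∀ i, 0 ≤ p i ∧ p i ≤ 1) (l c : ℝ)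
    (F : Finset (Finset ℕ)) (hF : F ⊆ (range m).powerset)
    (hc : ∀ R ∈ F, c ≤ l * (R.card : ℝ)) :
    ∑ R ∈ F, wt m p R ≤ Real.exp (l * (∑ i ∈ range m, p i) + m * (l ^ 2 / 4) - c) := by
  calc ∑ R ∈ F, wt m p R ≤ ∑ R ∈ F, Real.exp (-c) * (wt m p R * Real.exp l ^ R.card) := by
        refine Finset.sum_le_sum fun R hR => ?_
        have e1 : 1 ≤ Real.exp (-c) * Real.exp l ^ R.card := by
          rw [← Real.exp_nat_mul, ← Real.exp_add]
          apply Real.one_le_exp
          have := hc R hR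
          linarith [mul_comm l (R.card : ℝ)]
        calc wt m p R = wt m p R * 1 := (mul_one _).symm
          _ ≤ wt m p R * (Real.exp (-c) * Real.exp l ^ R.card) :=
            mul_le_mul_of_nonneg_left e1 (Tail1_nonneg m p hp R)
          _ = Real.exp (-c) * (wt m p R * Real.exp l ^ R.card) := by ring
    _ ≤ ∑ R ∈ (range m).powerset, Real.exp (-c) * (wt m p R * Real.exp l ^ R.card) :=
        Finset.sum_le_sum_of_subset_of_nonneg hF fun R _ _ =>
          mul_nonneg (Real.exp_pos _).le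
            (mul_nonneg (Tail1_nonneg m p hp R) (pow_nonneg (Real.exp_pos _).le _))
    _ = Real.exp (-c) * ∑ R ∈ (range m).powerset, wt m p R * Real.exp l ^ R.card :=
        (Finset.mul_sum _ _ _).symm
    _ ≤ Real.exp (-c) * Real.exp (l * (∑ i ∈ range m, p i) + m * (l ^ 2 / 4)) :=
        mul_le_mul_of_nonneg_left (Tail1_le h1 m p hp l) (Real.exp_pos _).le
    _ = Real.exp (l * (∑ i ∈ range m, p i) + m * (l ^ 2 / 4) - c) := by
        rw [← Real.exp_add]
        congr 1
        ring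

/-- **Item Tail1.** -/
theorem prf_Tail1 (h1 : Hoef) : Tail1 := by
  intro m p t hm hp ht
  have hm0 : (0 : ℝ) < m := by exact_mod_cast (by omega : 0 < m)
  have hl0 : 0 ≤ 2 * t / m := by positivity
  have hfin : -(2 * t / m) * t + m * ((2 * t / m) ^ 2 / 4) ≤ -(t ^ 2 / (2 * m)) := by
    have e1 : -(2 * t / m) * t + m * ((2 * t / m) ^ 2 / 4) = -(t ^ 2 / m) := by
      field_simp
      ring
    rw [e1]
    have e2 : t ^ 2 / (2 * m) ≤ t ^ 2 / m :=
      div_le_div_of_nonneg_left (by positivity) hm0 (by linarith)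
    linarith
  constructor
  · have h2 := Tail1_core h1 m p hp (2 * t / m) ((2 * t / m) * ((∑ i ∈ range m, p i) + t))
      ((range m).powerset.filter (fun R => (∑ i ∈ range m, p i) + t < (R.card : ℝ)))
      (Finset.filter_subset _ _) (fun R hR =>
        mul_le_mul_of_nonneg_left (Finset.mem_filter.1 hR).2.le hl0)
    refine h2.trans (Real.exp_le_exp.2 (le_trans (le_of_eq ?_) hfin))
    ring
  · have h2 := Tail1_core h1 m p hp (-(2 * t / m)) (-((2 * t / m) * ((∑ i ∈ range m, p i) - t)))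
      ((range m).powerset.filter (fun R => (R.card : ℝ) < (∑ i ∈ range m, p i) - t))
      (Finset.filter_subset _ _) (fun R hR => by
        have := mul_le_mul_of_nonneg_left (Finset.mem_filter.1 hR).2.le hl0
        linarith)
    refine h2.trans (Real.exp_le_exp.2 (le_trans (le_of_eq ?_) hfin))
    ring

end MP62db8e.RT
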