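import Mathlib
import Pool.Agent.Work.MP_62db8e_nt.RT.Stmts

/-!
# MP_62db8e_nt, block RT, item Tail2: the upper tail of a cut along a matching
-/

set_option autoImplicit false

namespace MP62db8e.RT

open Finset

theorem Tail2_wt_nonneg (m : ℕ) (p : ℕ → ℝ) (hp : ∀ i, 0 ≤ p i ∧ p i ≤ 1) (R : Finset ℕ) :
    0 ≤ wt m p R := by
  unfold wt
  exact mul_nonneg (Finset.prod_nonneg fun i _ => (hp i).1)
    (Finset.prod_nonneg fun i _ => by linarith [(hp i).2])

theorem prf_Tail2 (h1 : Hoef) (h2 : WProd) : Tail2 := by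
  intro m p E t hm hp hE hcard ht
  have hm' : (0 : ℝ) < m := by exact_mod_cast hm
  obtain ⟨l, hl⟩ : ∃ l : ℝ, l = 2 * t / m := ⟨_, rfl⟩
  have hl0 : 0 ≤ l := by
    rw [hl]
    positivity
  obtain ⟨s, hs⟩ : ∃ s : ℝ, s = ∑ e ∈ E, p e.1 * (1 - p e.2) := ⟨_, rfl⟩
  rw [← hs]
  have hw := Tail2_wt_nonneg m p hp
  have a1 : ∑ R ∈ (range m).powerset.filter (fun R => s + t / 2 < (cut E R : ℝ)), wt m p R ≤
      ∑ R ∈ (range m).powerset, wt m p R * Real.exp (l * ((cut E R : ℝ) - s - t / 2)) := by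
    calc ∑ R ∈ (range m).powerset.filter (fun R => s + t / 2 < (cut E R : ℝ)), wt m p R
        ≤ ∑ R ∈ (range m).powerset.filter (fun R => s + t / 2 < (cut E R : ℝ)),
          wt m p R * Real.exp (l * ((cut E R : ℝ) - s - t / 2)) := by
          refine Finset.sum_le_sum fun R hR => ?_
          rw [Finset.mem_filter] at hR
          have h3 : 1 ≤ Real.exp (l * ((cut E R : ℝ) - s - t / 2)) :=
            Real.one_le_exp (mul_nonneg hl0 (by linarith [hR.2]))
          exact le_mul_of_one_le_right (hw R) h3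
      _ ≤ _ := by
          refine Finset.sum_le_sum_of_subset_of_nonneg (Finset.filter_subset _ _) ?_
          intro R _ _
          exact mul_nonneg (hw R) (Real.exp_nonneg _)
  have a2 : ∑ R ∈ (range m).powerset, wt m p R * Real.exp (l * ((cut E R : ℝ) - s - t / 2)) =
      Real.exp (-(l * s) - l * t / 2) *
        ∏ e ∈ E, (1 + (Real.exp l - 1) * (p e.1 * (1 - p e.2))) := by
    rw [← h2 m p E hE (Real.exp l), Finset.mul_sum]
    refine Finset.sum_congr rfl fun R _ => ?_
    rw [← Real.exp_nat_mul]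
    have e1 : Real.exp (l * ((cut E R : ℝ) - s - t / 2)) =
        Real.exp (-(l * s) - l * t / 2) * Real.exp ((cut E R : ℝ) * l) := by
      rw [← Real.exp_add]
      congr 1
      ring
    rw [e1]
    ring
  have hq : ∀ e ∈ E, 0 ≤ p e.1 * (1 - p e.2) ∧ p e.1 * (1 - p e.2) ≤ 1 := by
    intro e _
    have b1 := hp e.1
    have b2 := hp e.2
    refine ⟨mul_nonneg b1.1 (by linarith), ?_⟩
    calc p e.1 * (1 - p e.2) ≤ 1 * 1 :=
          mul_le_mul b1.2 (by linarith) (by linarith) (by norm_num)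
      _ = 1 := one_mul _
  have a3 : ∏ e ∈ E, (1 + (Real.exp l - 1) * (p e.1 * (1 - p e.2))) ≤
      Real.exp (l * s + E.card * (l ^ 2 / 4)) := by
    calc ∏ e ∈ E, (1 + (Real.exp l - 1) * (p e.1 * (1 - p e.2)))
        ≤ ∏ e ∈ E, Real.exp (l * (p e.1 * (1 - p e.2)) + l ^ 2 / 4) := by
          refine Finset.prod_le_prod ?_ ?_
          · intro e he
            have h3 : 1 ≤ Real.exp l := Real.one_le_exp hl0
            have := mul_nonneg (by linarith : 0 ≤ Real.exp l - 1) (hq e he).1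
            linarith
          · intro e he
            have h3 := h1 (p e.1 * (1 - p e.2)) l (hq e he).1 (hq e he).2
            linarith
      _ = _ := by
          rw [← Real.exp_sum, Finset.sum_add_distrib, ← Finset.mul_sum, ← hs, Finset.sum_const,
            nsmul_eq_mul]
  refine a1.trans ?_
  rw [a2]
  refine (mul_le_mul_of_nonneg_left a3 (Real.exp_nonneg _)).trans ?_
  rw [← Real.exp_add]
  apply Real.exp_le_exp.mpr
  have hc : (2 : ℝ) * E.card ≤ m := by exact_mod_cast hcard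
  have hl2 : 0 ≤ l ^ 2 / 8 := by positivity
  have h4 : (E.card : ℝ) * (l ^ 2 / 4) ≤ m * (l ^ 2 / 8) := by nlinarith
  have h5 : m * (l ^ 2 / 8) = t ^ 2 / (2 * m) := by
    rw [hl]
    field_simp
    ring
  have h6 : l * t / 2 = 2 * (t ^ 2 / (2 * m)) := by
    rw [hl]
    field_simp
  linarith

end MP62db8e.RT
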