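import Pool.Agent.Work.MP_62db8e_nt.RT.Stmts

/-!
# Item Tent: the sum of a tent function over integers
-/

set_option autoImplicit false

namespace MP62db8e.RT

open Finset

theorem Tent_step (T : ℕ) (e : ℤ) : max 0 (((T + 1 : ℕ) : ℤ) - |e|) ≤
    max 0 ((T : ℤ) - |e|) + (if |e| ≤ (T : ℤ) then 1 else 0) := by
  push_cast
  split
  · rename_i h
    rw [max_eq_right (by linarith), max_eq_right (by linarith)]
    linarith
  · rename_i h
    have h1 : (T : ℤ) + 1 - |e| ≤ 0 := by omega
    rw [max_eq_left h1]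
    have := le_max_left (0 : ℤ) ((T : ℤ) - |e|)
    linarith

theorem Tent_card (T : ℕ) (c : ℤ) (D : Finset ℤ) :
    ((D.filter (fun d => |d - c| ≤ (T : ℤ))).card : ℤ) ≤ 2 * (T : ℤ) + 1 := by
  have h1 : D.filter (fun d => |d - c| ≤ (T : ℤ)) ⊆ Icc (c - (T : ℤ)) (c + (T : ℤ)) := by
    intro d hd
    rw [mem_filter, abs_le] at hd
    rw [mem_Icc]
    constructor
    · linarith [hd.2.1]
    · linarith [hd.2.2]
  have h2 := card_le_card h1
  rw [Int.card_Icc] at h2
  omega

theorem prf_Tent : Tent := by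
  intro T
  induction T with
  | zero =>
    intro c D
    have : ∑ d ∈ D, max 0 (((0 : ℕ) : ℤ) - |d - c|) = 0 := by
      refine sum_eq_zero fun d _ => ?_
      have := abs_nonneg (d - c)
      rw [max_eq_left]
      push_cast
      linarith
    rw [this]
    simp
  | succ T ih =>
    intro c D
    calc ∑ d ∈ D, max 0 (((T + 1 : ℕ) : ℤ) - |d - c|)
        ≤ ∑ d ∈ D, (max 0 ((T : ℤ) - |d - c|) + (if |d - c| ≤ (T : ℤ) then 1 else 0)) :=
          sum_le_sum fun d _ => Tent_step T (d - c)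
      _ = ∑ d ∈ D, max 0 ((T : ℤ) - |d - c|) +
            ((D.filter (fun d => |d - c| ≤ (T : ℤ))).card : ℤ) := by
          rw [sum_add_distrib]
          congr 1
          rw [sum_ite, sum_const_zero, add_zero, sum_const, nsmul_eq_mul, mul_one]
      _ ≤ (T : ℤ) ^ 2 + (2 * (T : ℤ) + 1) := add_le_add (ih c D) (Tent_card T c D)
      _ = ((T + 1 : ℕ) : ℤ) ^ 2 := by
          push_cast
          ring

end MP62db8e.RT
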