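import Pool.Agent.Work.MP_62db8e_nt.RT.Stmts

/-!
# MP_62db8e_nt, block RT, item WProd: generating function of the cut of a random set
-/

set_option autoImplicit false

namespace MP62db8e.RT

open Finset

theorem WProd_pow (E : Finset (ℕ × ℕ)) (R : Finset ℕ) (x : ℝ) :
    x ^ cut E R = ∏ e ∈ E, (1 + (x - 1) * (if e.1 ∈ R ∧ e.2 ∉ R then 1 else 0)) := by
  unfold cut
  rw [← Finset.prod_const, Finset.prod_filter]
  refine Finset.prod_congr rfl fun e _ => ?_
  split_ifs <;> ring

theorem WProd_iff (F : Finset (ℕ × ℕ)) (R : Finset ℕ) :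
    (∀ e ∈ F, e.1 ∈ R ∧ e.2 ∉ R) ↔
      (F.image Prod.fst ⊆ R ∧ Disjoint R (F.image Prod.snd)) := by
  constructor
  · intro h
    refine ⟨?_, ?_⟩
    · intro a ha
      obtain ⟨e, he, rfl⟩ := Finset.mem_image.1 ha
      exact (h e he).1
    · rw [Finset.disjoint_right]
      intro a ha
      obtain ⟨e, he, rfl⟩ := Finset.mem_image.1 ha
      exact (h e he).2
  · rintro ⟨h1, h2⟩ e he
    exact ⟨h1 (Finset.mem_image_of_mem _ he),
      Finset.disjoint_right.1 h2 (Finset.mem_image_of_mem _ he)⟩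

theorem WProd_sum (h : WSum) (m : ℕ) (p : ℕ → ℝ) (E : Finset (ℕ × ℕ)) (hE : IsMatching m E)
    (F : Finset (ℕ × ℕ)) (hF : F ⊆ E) :
    ∑ R ∈ (range m).powerset, wt m p R * (if ∀ e ∈ F, e.1 ∈ R ∧ e.2 ∉ R then 1 else 0) =
      ∏ e ∈ F, p e.1 * (1 - p e.2) := by
  have hS : F.image Prod.fst ⊆ range m := by
    intro a ha
    obtain ⟨e, he, rfl⟩ := Finset.mem_image.1 ha
    exact Finset.mem_range.2 (hE.1 e (hF he)).1
  have hT : F.image Prod.snd ⊆ range m := by
    intro a ha
    obtain ⟨e, he, rfl⟩ := Finset.mem_image.1 ha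
    exact Finset.mem_range.2 (hE.1 e (hF he)).2.1
  have hST : Disjoint (F.image Prod.fst) (F.image Prod.snd) := by
    rw [Finset.disjoint_left]
    intro a ha hb
    obtain ⟨e, he, rfl⟩ := Finset.mem_image.1 ha
    obtain ⟨f, hf, hfe⟩ := Finset.mem_image.1 hb
    by_cases hef : e = f
    · subst hef
      exact (hE.1 e (hF he)).2.2 hfe.symm
    · exact (hE.2 e (hF he) f (hF hf) hef).2.1 hfe.symm
  have hw := h m p (F.image Prod.fst) (F.image Prod.snd) hS hT hST
  have hi1 : Set.InjOn Prod.fst (F : Set (ℕ × ℕ)) := by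
    intro e he f hf hef
    by_contra hne
    exact (hE.2 e (hF he) f (hF hf) hne).1 hef
  have hi2 : Set.InjOn Prod.snd (F : Set (ℕ × ℕ)) := by
    intro e he f hf hef
    by_contra hne
    exact (hE.2 e (hF he) f (hF hf) hne).2.2.2 hef
  rw [Finset.prod_image hi1, Finset.prod_image hi2, ← Finset.prod_mul_distrib] at hw
  rw [← hw, Finset.sum_filter]
  refine Finset.sum_congr rfl fun R _ => ?_
  by_cases hR : ∀ e ∈ F, e.1 ∈ R ∧ e.2 ∉ R
  · rw [if_pos hR, if_pos ((WProd_iff F R).1 hR), mul_one]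
  · rw [if_neg hR, if_neg (fun h' => hR ((WProd_iff F R).2 h')), mul_zero]

theorem prf_WProd (h : WSum) : WProd := by
  intro m p E hE x
  have h1 : ∀ R, x ^ cut E R = ∑ F ∈ E.powerset,
      (x - 1) ^ F.card * (if ∀ e ∈ F, e.1 ∈ R ∧ e.2 ∉ R then 1 else 0) := by
    intro R
    rw [WProd_pow, Finset.prod_one_add]
    refine Finset.sum_congr rfl fun F _ => ?_
    rw [Finset.prod_mul_distrib, Finset.prod_const]
    congr 1
    exact Finset.prod_boole
  calc ∑ R ∈ (range m).powerset, wt m p R * x ^ cut E R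
      = ∑ R ∈ (range m).powerset, ∑ F ∈ E.powerset, (x - 1) ^ F.card *
          (wt m p R * (if ∀ e ∈ F, e.1 ∈ R ∧ e.2 ∉ R then 1 else 0)) := by
        refine Finset.sum_congr rfl fun R _ => ?_
        rw [h1, Finset.mul_sum]
        refine Finset.sum_congr rfl fun F _ => ?_
        ring
    _ = ∑ F ∈ E.powerset, (x - 1) ^ F.card * ∏ e ∈ F, p e.1 * (1 - p e.2) := by
        rw [Finset.sum_comm]
        refine Finset.sum_congr rfl fun F hF => ?_
        rw [← Finset.mul_sum, WProd_sum h m p E hE F (Finset.mem_powerset.1 hF)]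
    _ = ∏ e ∈ E, (1 + (x - 1) * (p e.1 * (1 - p e.2))) := by
        rw [Finset.prod_one_add]
        refine Finset.sum_congr rfl fun F _ => ?_
        rw [Finset.prod_mul_distrib (f := fun _ => x - 1), Finset.prod_const]

end MP62db8e.RT
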