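import Mathlib
import Pool.Agent.Work.MP_62db8e_nt.RT.Stmts

/-!
# MP_62db8e_nt, block RT: item WSum
-/

set_option autoImplicit false

namespace MP62db8e.RT

open Finset

/-- The product expansion, termwise. -/
lemma WSum_term (m : ℕ) (p : ℕ → ℝ) (S T R : Finset ℕ) (hS : S ⊆ range m) :
    (∏ i ∈ R, (if i ∈ T then 0 else p i)) * ∏ i ∈ range m \ R, (if i ∈ S then 0 else 1 - p i) =
      if S ⊆ R ∧ Disjoint R T then wt m p R else 0 := by
  by_cases h : S ⊆ R ∧ Disjoint R T
  · rw [if_pos h]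
    unfold wt
    congr 1
    · apply Finset.prod_congr rfl
      intro i hi
      rw [if_neg (Finset.disjoint_left.mp h.2 hi)]
    · apply Finset.prod_congr rfl
      intro i hi
      rw [if_neg (fun hiS => (Finset.mem_sdiff.mp hi).2 (h.1 hiS))]
  · rw [if_neg h]
    by_cases h1 : S ⊆ R
    · have h2 : ¬ Disjoint R T := fun h2 => h ⟨h1, h2⟩
      obtain ⟨i, hi, hiT⟩ := Finset.not_disjoint_iff.mp h2
      have h3 : (∏ i ∈ R, (if i ∈ T then (0 : ℝ) else p i)) = 0 :=
        Finset.prod_eq_zero hi (if_pos hiT)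
      rw [h3, zero_mul]
    · obtain ⟨i, hiS, hiR⟩ := Finset.not_subset.mp h1
      have h3 : (∏ i ∈ range m \ R, (if i ∈ S then (0 : ℝ) else 1 - p i)) = 0 :=
        Finset.prod_eq_zero (Finset.mem_sdiff.mpr ⟨hS hiS, hiR⟩) (if_pos hiS)
      rw [h3, mul_zero]

/-- Item WSum. -/
theorem prf_WSum : WSum := by
  intro m p S T hS hT hd
  rw [Finset.sum_filter]
  have h1 := Finset.prod_add (fun i => if i ∈ T then (0 : ℝ) else p i)
    (fun i => if i ∈ S then (0 : ℝ) else 1 - p i) (range m)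
  have h2 : ∑ R ∈ (range m).powerset, (if S ⊆ R ∧ Disjoint R T then wt m p R else 0) =
      ∏ i ∈ range m, ((if i ∈ T then (0 : ℝ) else p i) + if i ∈ S then (0 : ℝ) else 1 - p i) := by
    rw [h1]
    exact Finset.sum_congr rfl fun R _ => (WSum_term m p S T R hS).symm
  rw [h2]
  have h3 : ∀ i ∈ range m,
      ((if i ∈ T then (0 : ℝ) else p i) + if i ∈ S then (0 : ℝ) else 1 - p i) =
        (if i ∈ S then p i else 1) * (if i ∈ T then 1 - p i else 1) := by
    intro i _
    by_cases hiS : i ∈ S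
    · have hiT : i ∉ T := Finset.disjoint_left.mp hd hiS
      simp [hiS, hiT]
    · by_cases hiT : i ∈ T
      · simp [hiS, hiT]
      · simp [hiS, hiT]
  rw [Finset.prod_congr rfl h3, Finset.prod_mul_distrib, Finset.prod_ite_mem, Finset.prod_ite_mem,
    Finset.inter_eq_right.mpr hS, Finset.inter_eq_right.mpr hT]

end MP62db8e.RT
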