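import Pool.Agent.Work.MP_62db8e_nt.RT.Stmts

set_option autoImplicit false

/-! # Item Win of block RT of MP_62db8e_nt -/

namespace MP62db8e.RT

open Finset

theorem prf_Win (h1 : WinPt) (h2 : Tent) : Win := by
  intro A B m K L hK hL hm k I
  have hKpos : (0 : ℤ) < (K : ℤ) := by exact_mod_cast hK
  -- the sum as a sum over pairs
  have e1 : ∑ i ∈ I, win A K L (i + k) * win B K L i =
      ∑ p ∈ A ×ˢ B, (I.filter (fun i : ℤ =>
        ((i + k - 1) * (K : ℤ) < p.1 ∧ p.1 ≤ (i + k - 1) * (K : ℤ) + (K : ℤ) * (L : ℤ)) ∧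
        ((i - 1) * (K : ℤ) < p.2 ∧ p.2 ≤ (i - 1) * (K : ℤ) + (K : ℤ) * (L : ℤ)))).card := by
    have e2 : ∀ i : ℤ, win A K L (i + k) * win B K L i =
        ((A ×ˢ B).filter (fun p : ℤ × ℤ =>
          ((i + k - 1) * (K : ℤ) < p.1 ∧ p.1 ≤ (i + k - 1) * (K : ℤ) + (K : ℤ) * (L : ℤ)) ∧
          ((i - 1) * (K : ℤ) < p.2 ∧ p.2 ≤ (i - 1) * (K : ℤ) + (K : ℤ) * (L : ℤ)))).card := by
      intro i
      unfold win
      rw [← Finset.card_product, ← Finset.filter_product]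
    rw [Finset.sum_congr rfl (fun i _ => e2 i)]
    simp only [Finset.card_filter]
    exact Finset.sum_comm
  have e3 : (K : ℤ) * ((∑ i ∈ I, win A K L (i + k) * win B K L i : ℕ) : ℤ) ≤
      ∑ p ∈ A ×ˢ B, max 0 (((K * (L + 1) : ℕ) : ℤ) - |(p.1 - p.2) - k * (K : ℤ)|) := by
    rw [e1, Nat.cast_sum, Finset.mul_sum]
    apply Finset.sum_le_sum
    intro p _
    have := h1 K L hK hL p.1 p.2 k I
    refine this.trans (le_of_eq ?_)
    push_cast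
    rfl
  have e4 : ∑ p ∈ A ×ˢ B, max 0 (((K * (L + 1) : ℕ) : ℤ) - |(p.1 - p.2) - k * (K : ℤ)|) =
      ∑ d ∈ (A ×ˢ B).image (fun p => p.1 - p.2),
        (((A ×ˢ B).filter (fun p => p.1 - p.2 = d)).card : ℤ) *
          max 0 (((K * (L + 1) : ℕ) : ℤ) - |d - k * (K : ℤ)|) := by
    have := Finset.sum_comp (s := A ×ˢ B)
      (fun d : ℤ => max 0 (((K * (L + 1) : ℕ) : ℤ) - |d - k * (K : ℤ)|)) (fun p : ℤ × ℤ => p.1 - p.2)
    rw [this]
    apply Finset.sum_congr rfl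
    intro d _
    rw [nsmul_eq_mul]
  have e5 : ∑ d ∈ (A ×ˢ B).image (fun p => p.1 - p.2),
        (((A ×ˢ B).filter (fun p => p.1 - p.2 = d)).card : ℤ) *
          max 0 (((K * (L + 1) : ℕ) : ℤ) - |d - k * (K : ℤ)|) ≤
      ∑ d ∈ (A ×ˢ B).image (fun p => p.1 - p.2),
        (m : ℤ) * max 0 (((K * (L + 1) : ℕ) : ℤ) - |d - k * (K : ℤ)|) := by
    apply Finset.sum_le_sum
    intro d _
    apply mul_le_mul_of_nonneg_right _ (le_max_left _ _)
    exact_mod_cast hm d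
  have e6 := h2 (K * (L + 1)) (k * (K : ℤ)) ((A ×ˢ B).image (fun p => p.1 - p.2))
  rw [← Finset.mul_sum] at e5
  have e7 : (m : ℤ) * ∑ d ∈ (A ×ˢ B).image (fun p => p.1 - p.2),
      max 0 (((K * (L + 1) : ℕ) : ℤ) - |d - k * (K : ℤ)|) ≤ (m : ℤ) * ((K * (L + 1) : ℕ) : ℤ) ^ 2 :=
    mul_le_mul_of_nonneg_left e6 (by positivity)
  have e8 : (K : ℤ) * ((∑ i ∈ I, win A K L (i + k) * win B K L i : ℕ) : ℤ) ≤
      (K : ℤ) * ((m * (K * (L + 1) ^ 2) : ℕ) : ℤ) := by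
    calc (K : ℤ) * ((∑ i ∈ I, win A K L (i + k) * win B K L i : ℕ) : ℤ)
        ≤ _ := e3
      _ = _ := e4
      _ ≤ _ := e5
      _ ≤ _ := e7
      _ = _ := by push_cast; ring
  have e9 := le_of_mul_le_mul_left e8 hKpos
  exact_mod_cast e9

end MP62db8e.RT
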