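import Mathlib
import Pool.Agent.Work.MP_62db8e_nt.RT.Stmts

set_option autoImplicit false

namespace MP62db8e.RT

open Finset

theorem prf_WinPt : WinPt := by
  intro K L hK hL x y k I
  set S := I.filter (fun i : ℤ =>
      ((i + k - 1) * (K : ℤ) < x ∧ x ≤ (i + k - 1) * (K : ℤ) + (K : ℤ) * (L : ℤ)) ∧
      ((i - 1) * (K : ℤ) < y ∧ y ≤ (i - 1) * (K : ℤ) + (K : ℤ) * (L : ℤ))) with hS
  rcases S.eq_empty_or_nonempty with h | h
  · rw [h]; simp
  · refine le_trans ?_ (le_max_right _ _)
    set a := S.min' h with ha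
    set b := S.max' h with hb
    have hab : a ≤ b := S.min'_le b (S.max'_mem h)
    have hsub : S ⊆ Icc a b := fun i hi => Finset.mem_Icc.2 ⟨S.min'_le i hi, S.le_max' i hi⟩
    have hcard : (S.card : ℤ) ≤ b - a + 1 := by
      have h1 := Finset.card_le_card hsub
      rw [Int.card_Icc] at h1
      have h2 : ((b + 1 - a).toNat : ℤ) = b + 1 - a := Int.toNat_of_nonneg (by linarith)
      have h3 : (S.card : ℤ) ≤ ((b + 1 - a).toNat : ℤ) := by exact_mod_cast h1
      linarith
    obtain ⟨⟨a1, a2⟩, a3, a4⟩ := (Finset.mem_filter.1 (S.min'_mem h)).2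
    obtain ⟨⟨b1, b2⟩, b3, b4⟩ := (Finset.mem_filter.1 (S.max'_mem h)).2
    rw [← ha] at a1 a2 a3 a4
    rw [← hb] at b1 b2 b3 b4
    have hK0 : (0 : ℤ) ≤ K := Int.natCast_nonneg K
    have h5 : (K : ℤ) * (S.card : ℤ) ≤ K * (b - a + 1) := mul_le_mul_of_nonneg_left hcard hK0
    have h6 : |x - y - k * (K : ℤ)| ≤ (K : ℤ) * ((L : ℤ) + 1) - K * (b - a + 1) := by
      rw [abs_le]
      constructor
      · linear_combination (norm := skip) b1 + a4
        ring_nf
        linarith
      · linear_combination (norm := skip) a2 + b3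
        ring_nf
        linarith
    linarith

end MP62db8e.RT
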